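import Pool.Agent.BTL.St

/-!
# BTL, module Abs

The theorem for abstract data: assembly.
-/

set_option autoImplicit false

namespace BTL

open Module Matrix NumberField Pool.Agent.Helper7
open Pool.Agent.Ball (rot gAt gAt_br HG Lorentz)
open Pool.Agent.Helper8.D (ent)
open PSQ (W Inv BetR DRA)

theorem thm_Abs (h1 : St_Rots) (h2 : St_Max) (h3 : St_Cen) (h4 : St_Frm) (h5 : St_Fam) :
    St_Abs := by
  intro κ _ _ P K _ _ m F x σ₀ hm hx hL hT n k α hB hA hC
  have hϖ : (2 * Real.pi * Complex.I : ℂ) ≠ 0 := Complex.two_pi_I_ne_zero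
  obtain ⟨U, V, hUV, hVU, hrot⟩ := h1 κ P K m F x σ₀ hm hx hL n k _ hB hA
  have htl := h2 m (gAt (fun _ : Unit => n) (fun _ => P)
    (α : MultilinearMap ℂ (fun _ : Fin (2 * k) => W κ n) ℂ) () F σ₀) U V hm hUV hVU
    (gAt_br (fun _ : Unit => n) (fun _ => P) _ () F σ₀) hrot (hC U V hUV hVU)
  have hall := h3 κ P K m F x σ₀ (by omega) hx hT n k _ hB hA htl
  obtain ⟨e, -, he2⟩ := h4 κ _ P K m F x σ₀ hx
  apply PSQ.descent P hϖ n α hB hA
  refine h5 κ _ P n k m _ e ?_ ?_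
  · intro X c hXc
    have hcomm : F.Comm X := F.comm_of_isInv (fun _ : Unit => n) (fun _ => P) _ () hXc
    obtain ⟨a, b⟩ := he2 X c hcomm (hXc.pol ())
    exact ⟨ent F σ₀ X, a, b⟩
  · intro y
    obtain ⟨X, hX, hX2, hXy⟩ := hall y
    refine ⟨X.1 (), ?_, fun j => ?_⟩
    · have hE : ((fun _ : Unit => X.1 ()), (0 : ℂ)) = X :=
        Prod.ext (funext fun u => by cases u; rfl) hX2.symm
      show IsInv _ _ _ ((fun _ : Unit => X.1 ()), (0 : ℂ))
      rw [hE]
      exact hX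
    · have hcomm : F.Comm (X.1 ()) := F.comm_of_isInv (fun _ : Unit => n) (fun _ => P) _ () hX
      have h6 := (he2 (X.1 ()) X.2 hcomm (hX.pol ())).1 j
      rw [hXy] at h6
      exact h6

end BTL
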