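import Pool.Agent.BTL.St

/-!
# BTL: the symmetries of a class
-/

set_option autoImplicit false

namespace BTL

open Module Matrix NumberField Pool.Agent.Helper7
open Pool.Agent.GPC (AbVar Form IsGrothendieck IsDivisorial)
open PSQ (W Inv BetR DRA)

section

variable (A : AbVar) (n k : ℕ)
  (α : MultilinearMap ℂ (fun _ : Fin (2 * k) => W (Fin A.g ⊕ Fin A.g) n) ℂ)

/-- The space of the infinitesimal symmetries. -/
private noncomputable def AlgI_g : Submodule ℂ (Module.End ℂ A.H1 × ℂ) where
  carrier := {Z | Inv (pData A) n k α Z.1 Z.2}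
  add_mem' {X Y} hX hY := by
    have h := IsInv.add _ _ _ hX hY
    exact h
  zero_mem' := by
    have h := IsInv.zero (fun _ : Unit => n) (fun _ => pData A) α
    exact h
  smul_mem' c X hX := by
    have h := IsInv.smul (fun _ : Unit => n) (fun _ => pData A) α c hX
    exact h

/-- The projection to the only factor. -/
private noncomputable def AlgI_L :
    GG (fun _ : Unit => Fin A.g ⊕ Fin A.g) →ₗ[ℂ] Module.End ℂ A.H1 × ℂ :=
  LinearMap.prodMap
    (LinearMap.proj (φ := fun _ : Unit => Module.End ℂ ((Fin A.g ⊕ Fin A.g) → ℂ)) ()) LinearMap.id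

end

/-- ALGI -/
theorem thm_AlgI : St_AlgI := by
  intro A J n k α hJ hB hA
  have hϖ : (2 * Real.pi * Complex.I : ℂ) ≠ 0 := Complex.two_pi_I_ne_zero
  refine ⟨AlgI_g A n k α, fun Z => Iff.rfl, ?_⟩
  refine
    { comm := ?_
      pol := ?_
      rat := ?_
      mem := ?_ }
  · intro Z hZ v
    have h : Inv (pData A) n k α Z.1 Z.2 := hZ
    exact h.comm () () J (isDRB_of_isEnd A J hJ) v
  · intro Z hZ u v
    have h : Inv (pData A) n k α Z.1 Z.2 := hZ
    exact h.pol () u v
  · intro Z hZ
    have h1 := mem_span_of_isInv (fun _ : Unit => n) (fun _ => pData A) α hϖ hB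
      (fun _ => Z.1, Z.2) hZ
    have h2 : AlgI_L A (fun _ => Z.1, Z.2) ∈ (Submodule.span ℂ
        {Y | IsInv (fun _ : Unit => n) (fun _ => pData A) α Y ∧
          IsRatl (fun _ : Unit => pData A) Y}).map (AlgI_L A) := Submodule.mem_map_of_mem h1
    rw [Submodule.map_span] at h2
    refine Submodule.span_mono ?_ h2
    rintro _ ⟨Y, ⟨hY, hr⟩, rfl⟩
    refine ⟨?_, ?_, hr.2⟩
    · exact hY
    · intro v hv
      rw [← mem_pData_Q] at hv ⊢
      exact hr.1 () v hv
  · intro D
    exact isInv_N (fun _ : Unit => n) (fun _ => pData A) _ hϖ hB hA D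

end BTL
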