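import Pool.Agent.BTL.St

/-!
# BTL, module Cen

The centre.
-/

set_option autoImplicit false

namespace BTL

open Module Matrix NumberField Pool.Agent.Helper7
open Pool.Agent.Ball (rot gAt HG Lorentz)
open Pool.Agent.Helper8.D (ent ent_trace)
open Pool.Agent.Helper24 (tw tw_apply tw_conj)
open PSQ (W Inv BetR DRA)

/-- The identity is a symmetry with multiplier `2`. -/
private lemma cen_isInv_id {κ : Type} [Fintype κ] [DecidableEq κ] {ϖ : ℂ} (P : PData κ ϖ)
    (n k : ℕ) (α : MultilinearMap ℂ (fun _ : Fin (2 * k) => W κ n) ℂ) :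
    IsInv (fun _ : Unit => n) (fun _ => P) α
      ((fun _ => (LinearMap.id : Module.End ℂ (κ → ℂ))), (2 : ℂ)) where
  comm i j f hf v := rfl
  pol i u v := by
    show P.ψ u v + P.ψ u v = 2 * P.ψ u v
    ring
  form := by
    apply MultilinearMap.ext
    intro v
    rw [actForm_apply, _root_.smul_apply, smul_eq_mul]
    have h : ∀ r, α (Function.update v r
        (lift (fun _ : Unit => n) (fun _ => (LinearMap.id : Module.End ℂ (κ → ℂ))) (v r))) = α v := by
      intro r
      have h1 : lift (fun _ : Unit => n) (fun _ => (LinearMap.id : Module.End ℂ (κ → ℂ))) (v r) =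
        v r := rfl
      rw [h1, Function.update_eq_self]
    rw [Finset.sum_congr rfl fun r _ => h r, Finset.sum_const, Finset.card_univ, Fintype.card_fin,
      nsmul_eq_mul]
    push_cast
    ring

/-- The trace of an operator times an element of the field. -/
private lemma cen_trace {κ : Type} [Fintype κ] [DecidableEq κ] {ϖ : ℂ} {P : PData κ ϖ} {K : Type}
    [Field K] [NumberField K] {m : ℕ} (F : UF P K m) (x : K) (X : Module.End ℂ (κ → ℂ)) :
    LinearMap.trace ℂ (κ → ℂ) (X * F.ρ x) = ∑ τ : K →+* ℂ, τ x * (ent F τ X).trace := by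
  classical
  rw [LinearMap.trace_eq_matrix_trace ℂ F.eb, Matrix.trace, Fintype.sum_prod_type]
  refine Finset.sum_congr rfl fun τ _ => ?_
  rw [Matrix.trace, Finset.mul_sum]
  refine Finset.sum_congr rfl fun j _ => ?_
  rw [Matrix.diag_apply, Matrix.diag_apply, LinearMap.toMatrix_apply, Module.End.mul_apply]
  have h1 : F.ρ x (F.eb (τ, j)) = τ x • F.eb (τ, j) := F.rho_e x τ j
  rw [h1, map_smul, map_smul, Finsupp.smul_apply, smul_eq_mul]
  rfl

theorem thm_Cen : St_Cen := by
  intro κ _ _ P K _ _ m F x σ₀ hm hx hT n k α hB hA htl y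
  classical
  have hϖ : (2 * Real.pi * Complex.I : ℂ) ≠ 0 := Complex.two_pi_I_ne_zero
  obtain ⟨D, hD⟩ := hT
  set μ : ℂ := D (2 * Real.pi * Complex.I) / (2 * Real.pi * Complex.I) with hμ
  have hN := isInv_N (fun _ : Unit => n) (fun _ => P) α hϖ hB hA D
  have hX := IsInv.add _ _ _ hN (IsInv.smul _ _ _ (-(μ / 2)) (cen_isInv_id P n k α))
  set X := ((fun _ : Unit => P.N D), μ) +
    (-(μ / 2)) • ((fun _ : Unit => (LinearMap.id : Module.End ℂ (κ → ℂ))), (2 : ℂ)) with hXd
  have hX' : IsInv (fun _ : Unit => n) (fun _ => P) α X := hX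
  have hX2 : X.2 = 0 := by
    show μ + (-(μ / 2)) • (2 : ℂ) = 0
    rw [smul_eq_mul]; ring
  have hX1 : X.1 () = P.N D + (-(μ / 2)) • LinearMap.id := rfl
  have hmem : ent F σ₀ (X.1 ()) ∈ gAt (fun _ : Unit => n) (fun _ => P) α () F σ₀ :=
    ⟨X, hX', hX2, rfl⟩
  have hcX : F.Comm (X.1 ()) := F.comm_of_isInv (fun _ : Unit => n) (fun _ => P) α () hX'
  have hcN : F.Comm (P.N D) := F.comm_of_isInv (fun _ : Unit => n) (fun _ => P) α () hN
  have hconj := tw_conj F hm (X.1 ()) hcX 0 (fun u v => by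
    have := hX'.pol () u v
    rwa [hX2] at this) σ₀
  -- the trace of `X` at the place
  have htr : (ent F σ₀ (X.1 ())).trace ≠ 0 := by
    intro h0
    apply hD
    have h1 : (ent F (ComplexEmbedding.conjugate σ₀) (X.1 ())).trace = 0 := by
      rw [ent_trace F hm] at h0 ⊢
      have : tw F (ComplexEmbedding.conjugate σ₀) (X.1 ()) = - tw F σ₀ (X.1 ()) := by
        linear_combination hconj
      rw [this, mul_neg, h0, neg_zero]
    have h2 : ∀ τ : K →+* ℂ, (ent F τ (X.1 ())).trace = 0 := by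
      intro τ
      rcases hx.two τ with h | h
      · rw [h]; exact h0
      · rw [h]; exact h1
    have h3 : P.N D = X.1 () + (μ / 2) • LinearMap.id := by
      rw [hX1, add_assoc, ← add_smul, neg_add_cancel, zero_smul, add_zero]
    have h4 : ∀ τ : K →+* ℂ, (ent F τ (P.N D)).trace = (μ / 2) * m := by
      intro τ
      rw [h3, map_add, map_smul, Matrix.trace_add, h2, zero_add, Matrix.trace_smul, smul_eq_mul]
      congr 1
      have h5 : ent F τ (LinearMap.id : Module.End ℂ (κ → ℂ)) = 1 := by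
        ext a b
        rw [Pool.Agent.Helper8.D.ent_apply, LinearMap.id_apply,
          Pool.Agent.Helper24.co_e_same, Matrix.one_apply]
      rw [h5, Matrix.trace_one, Fintype.card_fin]
    rw [cen_trace, Finset.sum_congr rfl fun τ _ => by rw [h4 τ], ← Finset.sum_mul]
    have h6 : ∑ τ : K →+* ℂ, τ x = 0 := by
      have hu : (Finset.univ : Finset (K →+* ℂ)) = {σ₀, ComplexEmbedding.conjugate σ₀} := by
        ext τ
        simp only [Finset.mem_univ, Finset.mem_insert, Finset.mem_singleton, true_iff]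
        exact hx.two τ
      rw [hu, Finset.sum_pair hx.ne.symm, hx.imag, add_neg_cancel]
    rw [h6, zero_mul]
  have hy : y = (y - (y.trace / (ent F σ₀ (X.1 ())).trace) • ent F σ₀ (X.1 ())) +
      (y.trace / (ent F σ₀ (X.1 ())).trace) • ent F σ₀ (X.1 ()) := by
    rw [sub_add_cancel]
  rw [hy]
  refine Submodule.add_mem _ (htl _ ?_) (Submodule.smul_mem _ _ hmem)
  rw [Matrix.trace_sub, Matrix.trace_smul, smul_eq_mul, div_mul_cancel₀ _ htr, sub_self]

end BTL
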