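import Pool.Agent.BTL.Dua

/-!
# BTL: the class of the star operator
-/

set_option autoImplicit false

namespace BTL

open Module Matrix NumberField Pool.Agent.Helper7
open Pool.Agent.GPC (AbVar Form IsGrothendieck IsDivisorial)

/-! ## determinants -/

section det

variable {N : ℕ}

/-- the derivation of the determinant by a matrix acting on the rows -/
theorem DetB_trace (M T : Matrix (Fin N) (Fin N) ℂ) :
    ∑ i, (M.updateRow i ((M * T) i)).det = T.trace * M.det := by
  have h1 : ∀ i, (M.updateRow i ((M * T) i)).det = (M * T * M.adjugate) i i := by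
    intro i
    have h2 := Matrix.cramer_transpose_apply M ((M * T) i) i
    rw [← h2, Matrix.cramer_eq_adjugate_mulVec, Matrix.mulVec, Matrix.mul_apply, dotProduct]
    refine Finset.sum_congr rfl fun j _ => ?_
    rw [← Matrix.adjugate_transpose, Matrix.transpose_apply, mul_comm]
  rw [Finset.sum_congr rfl fun i _ => h1 i]
  have h3 : ∑ i, (M * T * M.adjugate) i i = (M * T * M.adjugate).trace := rfl
  rw [h3, Matrix.mul_assoc, Matrix.trace_mul_comm, Matrix.mul_assoc, Matrix.adjugate_mul,
    Matrix.mul_smul, Matrix.mul_one, Matrix.trace_smul, smul_eq_mul, mul_comm]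

/-- the coefficient of `X ^ r` in the determinant -/
theorem DetB_coeff (Q P : Fin N → Fin N → ℂ) (r : ℕ) :
    (Matrix.det (Matrix.of fun i j => (Polynomial.X : Polynomial ℂ) * Polynomial.C (Q i j) +
      Polynomial.C (P i j))).coeff r =
      ∑ s ∈ Finset.powersetCard r Finset.univ, (Matrix.of (s.piecewise Q P)).det := by
  classical
  have h1 : Matrix.det (Matrix.of fun i j => (Polynomial.X : Polynomial ℂ) * Polynomial.C (Q i j) +
      Polynomial.C (P i j)) = ∑ s : Finset (Fin N), Polynomial.X ^ s.card *
        Polynomial.C (Matrix.of (s.piecewise Q P)).det := by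
    have h2 := (Matrix.detRowAlternating (n := Fin N)
      (R := Polynomial ℂ)).toMultilinearMap.map_add_univ
      (fun i j => (Polynomial.X : Polynomial ℂ) * Polynomial.C (Q i j))
      (fun i j => Polynomial.C (P i j))
    have h3 : Matrix.det (Matrix.of fun i j => (Polynomial.X : Polynomial ℂ) *
        Polynomial.C (Q i j) + Polynomial.C (P i j)) =
        (Matrix.detRowAlternating (n := Fin N) (R := Polynomial ℂ)).toMultilinearMap
          ((fun i j => (Polynomial.X : Polynomial ℂ) * Polynomial.C (Q i j)) +
            (fun i j => Polynomial.C (P i j))) := rfl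
    rw [h3, h2]
    refine Finset.sum_congr rfl fun s _ => ?_
    have h4 : s.piecewise (fun i j => (Polynomial.X : Polynomial ℂ) * Polynomial.C (Q i j))
        (fun i j => Polynomial.C (P i j)) =
        s.piecewise (fun i => (Polynomial.X : Polynomial ℂ) •
          (fun i j => Polynomial.C ((s.piecewise Q P) i j)) i)
          (fun i j => Polynomial.C ((s.piecewise Q P) i j)) := by
      funext i j
      by_cases hi : i ∈ s
      · simp [Finset.piecewise, hi]
      · simp [Finset.piecewise, hi]
    rw [h4, MultilinearMap.map_piecewise_smul _ (fun _ => (Polynomial.X : Polynomial ℂ)),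
      Finset.prod_const, smul_eq_mul]
    congr 1
    have h5 := RingHom.map_det (Polynomial.C : ℂ →+* Polynomial ℂ)
      (Matrix.of (s.piecewise Q P))
    rw [h5]
    rfl
  rw [h1, Polynomial.finsetSum_coeff]
  have h6 : ∀ s : Finset (Fin N), (Polynomial.X ^ s.card *
      Polynomial.C (Matrix.of (s.piecewise Q P)).det).coeff r =
      if s.card = r then (Matrix.of (s.piecewise Q P)).det else 0 := by
    intro s
    rw [Polynomial.coeff_mul_C, Polynomial.coeff_X_pow]
    by_cases hs : s.card = r
    · rw [if_pos hs.symm, if_pos hs, one_mul]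
    · rw [if_neg (Ne.symm hs), if_neg hs, zero_mul]
  rw [Finset.sum_congr rfl fun s _ => h6 s, ← Finset.sum_filter]
  refine Finset.sum_congr ?_ fun _ _ => rfl
  ext s
  simp [Finset.mem_powersetCard]

/-- the form -/
noncomputable def DetB_map {V : Type} [AddCommGroup V] [Module ℂ V]
    (q p : V →ₗ[ℂ] (Fin N → ℂ)) (r : ℕ) : V [⋀^Fin N]→ₗ[ℂ] ℂ where
  toMultilinearMap := ∑ s ∈ Finset.powersetCard r (Finset.univ : Finset (Fin N)),
    (Matrix.detRowAlternating (n := Fin N) (R := ℂ)).toMultilinearMap.compLinearMap
      (fun i => if i ∈ s then q else p)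
  map_eq_zero_of_eq' := by
    classical
    intro v i j hij hne
    have h1 : (∑ s ∈ Finset.powersetCard r (Finset.univ : Finset (Fin N)),
        (Matrix.detRowAlternating (n := Fin N) (R := ℂ)).toMultilinearMap.compLinearMap
          (fun i => if i ∈ s then q else p)) v =
        ∑ s ∈ Finset.powersetCard r Finset.univ,
          (Matrix.of (s.piecewise (fun i => q (v i)) (fun i => p (v i)))).det := by
      rw [_root_.sum_apply]
      refine Finset.sum_congr rfl fun s _ => ?_
      rw [MultilinearMap.compLinearMap_apply]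
      have h2 : (fun i => (if i ∈ s then q else p) (v i)) =
          s.piecewise (fun i => q (v i)) (fun i => p (v i)) := by
        funext i
        by_cases hi : i ∈ s
        · simp [Finset.piecewise, hi]
        · simp [Finset.piecewise, hi]
      rw [h2]
      rfl
    change (∑ s ∈ Finset.powersetCard r (Finset.univ : Finset (Fin N)),
        (Matrix.detRowAlternating (n := Fin N) (R := ℂ)).toMultilinearMap.compLinearMap
          (fun i => if i ∈ s then q else p)) v = 0
    rw [h1, ← DetB_coeff, Matrix.det_zero_of_row_eq hne, Polynomial.coeff_zero]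
    funext k
    simp only [Matrix.of_apply]
    rw [hij]

theorem DetB_map_apply {V : Type} [AddCommGroup V] [Module ℂ V]
    (q p : V →ₗ[ℂ] (Fin N → ℂ)) (r : ℕ) (v : Fin N → V) :
    DetB_map q p r v = ∑ s ∈ Finset.powersetCard r Finset.univ,
      (Matrix.of (s.piecewise (fun i => q (v i)) (fun i => p (v i)))).det := by
  classical
  change (∑ s ∈ Finset.powersetCard r (Finset.univ : Finset (Fin N)),
    (Matrix.detRowAlternating (n := Fin N) (R := ℂ)).toMultilinearMap.compLinearMap
      (fun i => if i ∈ s then q else p)) v = _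
  rw [_root_.sum_apply]
  refine Finset.sum_congr rfl fun s _ => ?_
  rw [MultilinearMap.compLinearMap_apply]
  have h2 : (fun i => (if i ∈ s then q else p) (v i)) =
      s.piecewise (fun i => q (v i)) (fun i => p (v i)) := by
    funext i
    by_cases hi : i ∈ s
    · simp [Finset.piecewise, hi]
    · simp [Finset.piecewise, hi]
  rw [h2]
  rfl

/-- one determinant -/
theorem DetB_one (M T : Matrix (Fin N) (Fin N) ℂ) (a : Fin N → ℂ) :
    ∑ i, (M.updateRow i (a i • M i + (M * T) i)).det = (∑ i, a i + T.trace) * M.det := by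
  have h1 : ∀ i, (M.updateRow i (a i • M i + (M * T) i)).det =
      a i * M.det + (M.updateRow i ((M * T) i)).det := by
    intro i
    rw [Matrix.det_updateRow_add, Matrix.det_updateRow_smul, Matrix.updateRow_eq_self]
  rw [Finset.sum_congr rfl fun i _ => h1 i, Finset.sum_add_distrib, DetB_trace, add_mul,
    Finset.sum_mul]

/-- the form is killed -/
theorem DetB_killed {V : Type} [AddCommGroup V] [Module ℂ V] (r : ℕ)
    (q p : V →ₗ[ℂ] (Fin (2 * r) → ℂ)) (Z : V →ₗ[ℂ] V) (c μ : ℂ)
    (T : Matrix (Fin (2 * r)) (Fin (2 * r)) ℂ) (hT : T.trace = 0)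
    (hq : ∀ v, q (Z v) = (μ - c) • q v + q v ᵥ* T) (hp : ∀ v, p (Z v) = c • p v + p v ᵥ* T)
    (v : Fin (2 * r) → V) :
    ∑ i, DetB_map q p r (Function.update v i (Z (v i))) = (r : ℂ) * μ * DetB_map q p r v := by
  classical
  simp only [DetB_map_apply]
  rw [Finset.sum_comm, Finset.mul_sum]
  refine Finset.sum_congr rfl fun s hs => ?_
  have hcard : s.card = r := (Finset.mem_powersetCard.1 hs).2
  have h1 := DetB_one (Matrix.of (s.piecewise (fun i => q (v i)) (fun i => p (v i)))) T
    (s.piecewise (fun _ => μ - c) (fun _ => c))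
  have h2 : ∀ i, Matrix.of (s.piecewise (fun j => q (Function.update v i (Z (v i)) j))
      (fun j => p (Function.update v i (Z (v i)) j))) =
      (Matrix.of (s.piecewise (fun i => q (v i)) (fun i => p (v i)))).updateRow i
        (s.piecewise (fun _ => μ - c) (fun _ => c) i •
          (Matrix.of (s.piecewise (fun i => q (v i)) (fun i => p (v i)))) i +
          (Matrix.of (s.piecewise (fun i => q (v i)) (fun i => p (v i))) * T) i) := by
    intro i
    ext j k
    by_cases hji : j = i
    · subst hji
      rw [Matrix.updateRow_self]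
      by_cases hj : j ∈ s
      · have h3 : (Matrix.of (s.piecewise (fun i => q (v i)) (fun i => p (v i))) * T) j k =
            (q (v j) ᵥ* T) k := by
          rw [Matrix.mul_apply, Matrix.vecMul, dotProduct]
          refine Finset.sum_congr rfl fun l _ => ?_
          rw [Matrix.of_apply, Finset.piecewise_eq_of_mem _ _ _ hj]
        rw [Matrix.of_apply, Finset.piecewise_eq_of_mem _ _ _ hj, Function.update_self, hq,
          Pi.add_apply, Pi.add_apply, h3, Pi.smul_apply, Pi.smul_apply, Matrix.of_apply,
          Finset.piecewise_eq_of_mem _ _ _ hj, Finset.piecewise_eq_of_mem _ _ _ hj]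
      · have h3 : (Matrix.of (s.piecewise (fun i => q (v i)) (fun i => p (v i))) * T) j k =
            (p (v j) ᵥ* T) k := by
          rw [Matrix.mul_apply, Matrix.vecMul, dotProduct]
          refine Finset.sum_congr rfl fun l _ => ?_
          rw [Matrix.of_apply, Finset.piecewise_eq_of_notMem _ _ _ hj]
        rw [Matrix.of_apply, Finset.piecewise_eq_of_notMem _ _ _ hj, Function.update_self, hp,
          Pi.add_apply, Pi.add_apply, h3, Pi.smul_apply, Pi.smul_apply, Matrix.of_apply,
          Finset.piecewise_eq_of_notMem _ _ _ hj, Finset.piecewise_eq_of_notMem _ _ _ hj]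
    · rw [Matrix.updateRow_ne hji, Matrix.of_apply, Matrix.of_apply]
      by_cases hj : j ∈ s
      · rw [Finset.piecewise_eq_of_mem _ _ _ hj, Finset.piecewise_eq_of_mem _ _ _ hj,
          Function.update_of_ne hji]
      · rw [Finset.piecewise_eq_of_notMem _ _ _ hj, Finset.piecewise_eq_of_notMem _ _ _ hj,
          Function.update_of_ne hji]
  rw [Finset.sum_congr rfl fun i _ => by rw [h2 i], h1, hT, add_zero]
  congr 1
  have h3 : ∑ i, s.piecewise (fun _ => μ - c) (fun _ => c) i =
      ∑ i ∈ s, (μ - c) + ∑ i ∈ Finset.univ \ s, c := by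
    rw [Finset.sum_piecewise, Finset.univ_inter]
  rw [h3, Finset.sum_const, Finset.sum_const, Finset.card_sdiff_of_subset (Finset.subset_univ s),
    Finset.card_univ, Fintype.card_fin, hcard, nsmul_eq_mul, nsmul_eq_mul]
  have h4 : 2 * r - r = r := by omega
  rw [h4]
  ring

/-- the value of the form -/
theorem DetB_value {V : Type} [AddCommGroup V] [Module ℂ V] (r : ℕ)
    (q p : V →ₗ[ℂ] (Fin (2 * r) → ℂ)) (x : Matrix (Fin (2 * r)) (Fin (2 * r)) ℂ)
    (v : Fin (2 * r) → V)
    (hq : ∀ i : Fin (2 * r), (i : ℕ) < r → q (v i) = x i)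
    (hq' : ∀ i : Fin (2 * r), ¬ (i : ℕ) < r → q (v i) = 0)
    (hp : ∀ i : Fin (2 * r), ¬ (i : ℕ) < r → p (v i) = x i) :
    DetB_map q p r v = x.det := by
  classical
  rw [DetB_map_apply]
  set s₀ : Finset (Fin (2 * r)) := Finset.univ.filter fun i => (i : ℕ) < r with hs₀
  have hcard : s₀.card = r := by
    have h1 : s₀ = Finset.univ.map (Fin.castLEEmb (show r ≤ 2 * r by omega)) := by
      ext i
      simp only [hs₀, Finset.mem_filter, Finset.mem_univ, true_and, Finset.mem_map]
      constructor
      · intro hi
        exact ⟨⟨i, hi⟩, Fin.ext rfl⟩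
      · rintro ⟨a, rfl⟩
        exact a.2
    rw [h1, Finset.card_map, Finset.card_univ, Fintype.card_fin]
  have hmem : ∀ i, i ∈ s₀ ↔ (i : ℕ) < r := fun i => by simp [hs₀]
  rw [Finset.sum_eq_single s₀]
  · congr 1
    ext i j
    rw [Matrix.of_apply]
    by_cases hi : i ∈ s₀
    · rw [Finset.piecewise_eq_of_mem _ _ _ hi, hq i ((hmem i).1 hi)]
    · rw [Finset.piecewise_eq_of_notMem _ _ _ hi, hp i fun h => hi ((hmem i).2 h)]
  · intro s hs hne
    have hsc : s.card = r := (Finset.mem_powersetCard.1 hs).2
    have h1 : ∃ i, i ∈ s ∧ i ∉ s₀ := by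
      by_contra hcon
      push Not at hcon
      exact hne (Finset.eq_of_subset_of_card_le hcon (by rw [hsc, hcard]))
    obtain ⟨i, hi, hi0⟩ := h1
    apply Matrix.det_eq_zero_of_row_eq_zero i
    intro j
    rw [Matrix.of_apply, Finset.piecewise_eq_of_mem _ _ _ hi,
      hq' i fun h => hi0 ((hmem i).2 h)]
    rfl
  · intro h
    exact absurd (Finset.mem_powersetCard.2 ⟨Finset.subset_univ _, hcard⟩) h

end det

/-- [DetB] the class of the star operator -/
theorem thm_DetB : St_DetB := by
  intro X d J z r h b b' 𝔤 hK hz hA hb hb' hbb hexp _hexp' hC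
  have hz0 : z ≠ 0 := AFT.z_ne hK.pos hz
  have hnz0 : -z ≠ 0 := neg_ne_zero.2 hz0
  set b₁ : Fin (2 * r) → X.H1 := fun j => b (Fin.cast h j) with hb₁
  set b₂ : Fin (2 * r) → X.H1 := fun j => b' (Fin.cast h j) with hb₂
  obtain ⟨q, hq⟩ : ∃ q : X.H1 →ₗ[ℂ] (Fin (2 * r) → ℂ), ∀ v j, q v j = X.polForm (b₁ j) v :=
    ⟨LinearMap.pi fun j => X.polForm (b₁ j), fun _ _ => rfl⟩
  obtain ⟨p, hp⟩ : ∃ p : X.H1 →ₗ[ℂ] (Fin (2 * r) → ℂ), ∀ v j, p v j = X.polForm v (b₂ j) :=
    ⟨LinearMap.pi fun j => X.polForm.flip (b₂ j), fun _ _ => rfl⟩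
  have hpair : ∀ i j, X.polForm (b i) (b' j) = if i = j then 1 else 0 := hbb
  refine ⟨DetB_map q p r, ?_, ?_⟩
  · intro Z hZ v
    obtain ⟨c, S, hS, hZb⟩ := hC Z hZ
    have hpol : ∀ u v, X.polForm (Z.1 u) v + X.polForm u (Z.1 v) = Z.2 * X.polForm u v :=
      hA.pol Z hZ
    have hSij : ∀ i j, S i j = -S j i := fun i j => by
      have h1 := congrFun (congrFun hS j) i
      rw [Matrix.transpose_apply, Matrix.neg_apply] at h1
      exact h1
    have hcast : ∀ (f : Fin X.g → ℂ), ∑ i, f i = ∑ i : Fin (2 * r), f (Fin.cast h i) := fun f =>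
      (Fintype.sum_equiv (finCongr h) (fun i => f (Fin.cast h i)) f fun _ => rfl).symm
    have hbb1 : ∀ i j, X.polForm (b i) (Z.1 (b' j)) = Z.2 * (if i = j then 1 else 0) -
        (c * (if i = j then 1 else 0) + S j i) := by
      intro i j
      have h1 := hpol (b i) (b' j)
      rw [hZb i, map_add, map_smul, map_sum, LinearMap.add_apply, LinearMap.sum_apply,
        LinearMap.smul_apply, hpair, smul_eq_mul] at h1
      have h2 : ∑ k, (X.polForm (S k i • b k)) (b' j) = S j i := by
        rw [Finset.sum_eq_single j]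
        · rw [map_smul, LinearMap.smul_apply, hpair, if_pos rfl, smul_eq_mul, mul_one]
        · intro k _ hk
          rw [map_smul, LinearMap.smul_apply, hpair, if_neg hk, smul_zero]
        · intro h3
          exact absurd (Finset.mem_univ _) h3
      rw [h2] at h1
      linear_combination h1
    have hZb' : ∀ j, Z.1 (b' j) = (Z.2 - c) • b' j + ∑ i, S i j • b' i := by
      intro j
      have h1 : J (Z.1 (b' j)) = z • Z.1 (b' j) := by
        rw [← hA.comm Z hZ, hb', map_smul]
      have h2 : Z.1 (b' j) = ∑ i, X.polForm (b i) (Z.1 (b' j)) • b' i := hexp _ h1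
      rw [h2]
      have h3 : (Z.2 - c) • b' j = ∑ i, ((Z.2 - c) * (if i = j then 1 else 0)) • b' i := by
        rw [Finset.sum_eq_single j]
        · rw [if_pos rfl, mul_one]
        · intro k _ hk
          rw [if_neg hk, mul_zero, zero_smul]
        · intro h3
          exact absurd (Finset.mem_univ _) h3
      rw [h3, ← Finset.sum_add_distrib]
      refine Finset.sum_congr rfl fun i _ => ?_
      rw [hbb1, ← add_smul, hSij j i]
      congr 1
      ring
    refine DetB_killed r q p Z.1 c Z.2 (Matrix.of fun i j => S (Fin.cast h j) (Fin.cast h i))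
      ?_ ?_ ?_ v
    · rw [Matrix.trace]
      refine Finset.sum_eq_zero fun i _ => ?_
      rw [Matrix.diag_apply, Matrix.of_apply]
      have h1 := hSij (Fin.cast h i) (Fin.cast h i)
      linear_combination (1 / 2 : ℂ) * h1
    · intro w
      funext j
      rw [Pi.add_apply, Pi.smul_apply, hq, hq, smul_eq_mul, Matrix.vecMul, dotProduct]
      have h1 := hpol (b₁ j) w
      rw [hb₁] at h1 ⊢
      simp only at h1 ⊢
      rw [hZb, map_add, map_smul, map_sum, LinearMap.add_apply, LinearMap.sum_apply,
        LinearMap.smul_apply, smul_eq_mul] at h1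
      have h2 : ∑ i, (X.polForm (S i (Fin.cast h j) • b i)) w =
          -∑ i, q w i * (Matrix.of fun i j => S (Fin.cast h j) (Fin.cast h i)) i j := by
        rw [hcast, ← Finset.sum_neg_distrib]
        refine Finset.sum_congr rfl fun i _ => ?_
        rw [map_smul, LinearMap.smul_apply, smul_eq_mul, Matrix.of_apply, hq,
          hSij (Fin.cast h i) (Fin.cast h j)]
        ring
      rw [h2] at h1
      linear_combination h1
    · intro w
      funext j
      rw [Pi.add_apply, Pi.smul_apply, hp, hp, smul_eq_mul, Matrix.vecMul, dotProduct]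
      have h1 := hpol w (b₂ j)
      rw [hb₂] at h1 ⊢
      simp only at h1 ⊢
      rw [hZb', map_add, map_smul, map_sum, smul_eq_mul] at h1
      have h2 : ∑ i, (X.polForm w) (S i (Fin.cast h j) • b' i) =
          -∑ i, p w i * (Matrix.of fun i j => S (Fin.cast h j) (Fin.cast h i)) i j := by
        rw [hcast, ← Finset.sum_neg_distrib]
        refine Finset.sum_congr rfl fun i _ => ?_
        rw [map_smul, smul_eq_mul, Matrix.of_apply, hp, hSij (Fin.cast h i) (Fin.cast h j)]
        ring
      rw [h2] at h1
      linear_combination h1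
  · intro x
    refine DetB_value r q p (x.submatrix id (Fin.cast h)) _ ?_ ?_ ?_
    · intro i hi
      funext j
      simp only [if_pos hi]
      rw [hq, map_sum, Finset.sum_eq_single (Fin.cast h j)]
      · rw [map_smul, hb₁]
        simp only
        rw [hpair, if_pos rfl, smul_eq_mul, mul_one]
        rfl
      · intro k _ hk
        rw [map_smul, hb₁]
        simp only
        rw [hpair, if_neg (Ne.symm hk), smul_zero]
      · intro h3
        exact absurd (Finset.mem_univ _) h3
    · intro i hi
      funext j
      simp only [if_neg hi]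
      rw [hq, map_sum]
      refine Finset.sum_eq_zero fun k _ => ?_
      rw [map_smul, Dua_iso X J hK.adj hnz0 (hb _) (hb _), smul_zero]
    · intro i hi
      funext j
      simp only [if_neg hi]
      rw [hp, map_sum, LinearMap.sum_apply, Finset.sum_eq_single (Fin.cast h j)]
      · rw [map_smul, LinearMap.smul_apply, hb₂]
        simp only
        rw [hpair, if_pos rfl, smul_eq_mul, mul_one]
        rfl
      · intro k _ hk
        rw [map_smul, LinearMap.smul_apply, hb₂]
        simp only
        rw [hpair, if_neg hk, smul_zero]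
      · intro h3
        exact absurd (Finset.mem_univ _) h3

end BTL
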