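import Pool.Agent.BTL.St
import Pool.Agent.Helper7.AFT.Bal

/-!
# BTL: the dual basis
-/

set_option autoImplicit false

namespace BTL

open Module Matrix NumberField Pool.Agent.Helper7
open Pool.Agent.GPC (AbVar Form IsGrothendieck IsDivisorial)

theorem Dua_finrank (X : AbVar) : finrank ℂ X.H1 = 2 * X.g := by
  rw [Module.finrank_fintype_fun_eq_card]
  simp [two_mul]

theorem Dua_nd (X : AbVar) (v : X.H1) (h : ∀ u, X.polForm v u = 0) : v = 0 :=
  (pData X).hψnd v h

theorem Dua_anti (X : AbVar) (u v : X.H1) : X.polForm u v = -X.polForm v u :=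
  (pData X).hψalt u v

/-- eigenspaces of a skew operator are isotropic -/
theorem Dua_iso (X : AbVar) (J : Module.End ℂ X.H1)
    (hadj : ∀ u v, X.pol (J u) v = - X.pol u (J v)) {y : ℂ} (hy : y ≠ 0) {u v : X.H1}
    (hu : J u = y • u) (hv : J v = y • v) : X.polForm u v = 0 := by
  have h1 : X.polForm (J u) v = -X.polForm u (J v) := hadj u v
  rw [hu, hv, map_smul, LinearMap.smul_apply, map_smul, smul_eq_mul] at h1
  have h2 : (2 * y) * X.polForm u v = 0 := by linear_combination h1
  exact (mul_eq_zero.1 h2).resolve_left (mul_ne_zero two_ne_zero hy)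

/-- dimension inequality -/
theorem Dua_le (X : AbVar) (J : Module.End ℂ X.H1)
    (hadj : ∀ u v, X.pol (J u) v = - X.pol u (J v)) {y : ℂ} (hy : y ≠ 0)
    (hdec : ∀ v : X.H1, ∃ a b : X.H1, J a = y • a ∧ J b = (-y) • b ∧ v = a + b) :
    finrank ℂ (Module.End.eigenspace J y) ≤ finrank ℂ (Module.End.eigenspace J (-y)) := by
  have h1 : Function.Injective (X.polForm.domRestrict₁₂ (Module.End.eigenspace J y)
      (Module.End.eigenspace J (-y))) := by
    rw [injective_iff_map_eq_zero]
    intro v hv
    apply Subtype.ext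
    apply Dua_nd X
    intro u
    obtain ⟨a, b, ha, hb, rfl⟩ := hdec u
    rw [map_add, Dua_iso X J hadj hy (Module.End.mem_eigenspace_iff.1 v.2) ha, zero_add]
    have h2 := LinearMap.congr_fun hv ⟨b, Module.End.mem_eigenspace_iff.2 hb⟩
    exact h2
  have h2 := LinearMap.finrank_le_finrank_of_injective h1
  rwa [Subspace.dual_finrank_eq] at h2

/-- [Dua] the dual basis -/
theorem thm_Dua : St_Dua := by
  intro X d J z b hK hz hli hb
  have hz0 : z ≠ 0 := AFT.z_ne hK.pos hz
  have hz' : (-z) ^ 2 = -(d : ℂ) := by rw [neg_sq, hz]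
  have hlin : IsLinearMap ℂ J := ⟨fun u v => map_add J u v, fun c u => map_smul J c u⟩
  have hnz0 : -z ≠ 0 := neg_ne_zero.2 hz0
  have hdec : ∀ v : X.H1, ∃ a c : X.H1, J a = z • a ∧ J c = (-z) • c ∧ v = a + c := fun v =>
    ⟨AFT.pz J z v, AFT.pz J (-z) v, AFT.pz_eigen hlin hK.sq hz v, AFT.pz_eigen hlin hK.sq hz' v,
      (AFT.pz_add hz0 v).symm⟩
  have hdec' : ∀ v : X.H1, ∃ a c : X.H1, J a = (-z) • a ∧ J c = (-(-z)) • c ∧ v = a + c :=
    fun v => by
      obtain ⟨a, c, ha, hc, h⟩ := hdec v
      exact ⟨c, a, hc, by rw [neg_neg]; exact ha, by rw [h, add_comm]⟩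
  set Vp := Module.End.eigenspace J z with hVp
  set Vm := Module.End.eigenspace J (-z) with hVm
  have hmp : ∀ v, v ∈ Vp ↔ J v = z • v := fun v => Module.End.mem_eigenspace_iff
  have hmm : ∀ v, v ∈ Vm ↔ J v = (-z) • v := fun v => Module.End.mem_eigenspace_iff
  have hd1 : finrank ℂ Vp = finrank ℂ Vm := by
    apply le_antisymm
    · exact Dua_le X J hK.adj hz0 hdec
    · have h := Dua_le X J hK.adj hnz0 hdec'
      rwa [neg_neg] at h
  have hd2 : finrank ℂ Vp + finrank ℂ Vm ≤ 2 * X.g := by
    have h1 : Vp ⊓ Vm = ⊥ := by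
      rw [eq_bot_iff]
      intro v hv
      have h3 := (hmp v).1 hv.1
      have h4 := (hmm v).1 hv.2
      rw [h3] at h4
      have h5 : (2 * z) • v = 0 := by
        have : (2 * z) • v = z • v - (-z) • v := by module
        rw [this, h4, sub_self]
      exact (smul_eq_zero.mp h5).resolve_left (mul_ne_zero two_ne_zero hz0)
    have h3 := Submodule.finrank_sup_add_finrank_inf_eq Vp Vm
    rw [h1, finrank_bot, add_zero] at h3
    rw [← h3, ← Dua_finrank X]
    exact Submodule.finrank_le _
  -- `b` is a basis of `Vm`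
  have hbm : ∀ i, b i ∈ Vm := fun i => (hmm _).2 (hb i)
  have hli' : LinearIndependent ℂ (fun i => (⟨b i, hbm i⟩ : Vm)) :=
    LinearIndependent.of_comp Vm.subtype hli
  have hd3 : X.g ≤ finrank ℂ Vm := by
    have := hli'.fintype_card_le_finrank
    rwa [Fintype.card_fin] at this
  have hm : finrank ℂ Vm = X.g := by omega
  have hp : finrank ℂ Vp = X.g := by omega
  have hspan : ∀ u ∈ Vm, u ∈ Submodule.span ℂ (Set.range b) := by
    have h1 : Submodule.span ℂ (Set.range b) = Vm := by
      apply Submodule.eq_of_le_of_finrank_eq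
      · rw [Submodule.span_le]
        rintro _ ⟨i, rfl⟩
        exact hbm i
      · rw [finrank_span_eq_card hli, Fintype.card_fin, hm]
    intro u hu
    rw [h1]
    exact hu
  -- the coordinates
  obtain ⟨Q, hQ⟩ : ∃ Q : Vp →ₗ[ℂ] (Fin X.g → ℂ), ∀ v i, Q v i = X.polForm (b i) v :=
    ⟨LinearMap.pi fun i => (X.polForm (b i)).comp Vp.subtype, fun _ _ => rfl⟩
  have hort : ∀ v : X.H1, (∀ i, X.polForm (b i) v = 0) → ∀ u ∈ Vm, X.polForm u v = 0 := by
    intro v hv u hu
    have h1 := hspan u hu
    clear hu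
    induction h1 using Submodule.span_induction with
    | mem u hu => obtain ⟨i, rfl⟩ := hu; exact hv i
    | zero => simp
    | add u w _ _ hu hw =>
      rw [map_add, LinearMap.add_apply, hu, hw, add_zero]
    | smul c u _ hu => rw [map_smul, LinearMap.smul_apply, hu, smul_zero]
  have hQinj : Function.Injective Q := by
    rw [injective_iff_map_eq_zero]
    intro v hv
    apply Subtype.ext
    apply Dua_nd X
    intro u
    obtain ⟨a, c, ha, hc, rfl⟩ := hdec u
    rw [map_add, Dua_iso X J hK.adj hz0 ((hmp _).1 v.2) ha, zero_add, Dua_anti,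
      hort v (fun i => by rw [← hQ, hv]; rfl) c ((hmm c).2 hc), neg_zero]
  have hQsurj : Function.Surjective Q := by
    refine (LinearMap.injective_iff_surjective_of_finrank_eq_finrank ?_).1 hQinj
    rw [hp, Module.finrank_fintype_fun_eq_card, Fintype.card_fin]
  choose c hc using hQsurj
  set b' : Fin X.g → X.H1 := fun j => (c (Pi.single j 1) : X.H1) with hb'
  have hpair : ∀ i j, X.polForm (b i) (b' j) = if i = j then 1 else 0 := by
    intro i j
    rw [hb', ← hQ, hc, Pi.single_apply]
  have hexp : ∀ v, J v = z • v → v = ∑ i, X.pol (b i) v • b' i := by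
    intro v hv
    have h1 : (∑ i, X.polForm (b i) v • c (Pi.single i 1)) = (⟨v, (hmp v).2 hv⟩ : Vp) := by
      apply hQinj
      rw [map_sum]
      funext j
      rw [Finset.sum_apply, Finset.sum_eq_single j]
      · rw [map_smul, hc, Pi.smul_apply, Pi.single_eq_same, smul_eq_mul, mul_one, hQ]
      · intro i _ hij
        rw [map_smul, hc, Pi.smul_apply, Pi.single_apply, if_neg (Ne.symm hij), smul_zero]
      · intro h
        exact absurd (Finset.mem_univ j) h
    have h2 := congrArg Subtype.val h1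
    rw [AddSubmonoidClass.coe_finsetSum] at h2
    exact h2.symm
  refine ⟨b', fun j => (hmp _).1 (c _).2, hpair, hexp, ?_⟩
  · intro v hv
    rw [← sub_eq_zero]
    apply Dua_nd X
    intro u
    obtain ⟨a, e, ha, he, rfl⟩ := hdec u
    have hvm : v - ∑ i, X.pol v (b' i) • b i ∈ Vm :=
      Vm.sub_mem ((hmm v).2 hv) (Vm.sum_mem fun i _ => Vm.smul_mem _ (hbm i))
    rw [map_add, Dua_iso X J hK.adj hnz0 ((hmm _).1 hvm) he, add_zero]
    -- the component in `Vp` is a combination of the `b'`
    have h3 : ∀ j, X.polForm (v - ∑ i, X.pol v (b' i) • b i) (b' j) = 0 := by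
      intro j
      have h4 : X.polForm (v - ∑ i, X.pol v (b' i) • b i) (b' j)
          = X.polForm v (b' j) - ∑ i, X.pol v (b' i) * X.polForm (b i) (b' j) := by
        rw [map_sub, LinearMap.sub_apply, map_sum, LinearMap.sum_apply]
        congr 1
        exact Finset.sum_congr rfl fun i _ => by
          rw [map_smul, LinearMap.smul_apply, smul_eq_mul]
      rw [h4, Finset.sum_eq_single j]
      · rw [hpair, if_pos rfl, mul_one]
        exact sub_self _
      · intro i _ hij
        rw [hpair, if_neg hij, mul_zero]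
      · intro h
        exact absurd (Finset.mem_univ j) h
    rw [hexp a ha, map_sum]
    refine Finset.sum_eq_zero fun j _ => ?_
    rw [map_smul, h3, smul_zero]

end BTL
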