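import Pool.Agent.BTL.St
import Pool.Agent.PSQ.M.Fft

/-!
# BTL: the first fundamental theorem for the powers
-/

set_option autoImplicit false

namespace BTL

open Matrix Module Pool.Agent.Helper7
open PSQ (W Inv BetR DRA)

/-- the reindexing -/
def Fam_eqv (n p : ℕ) : (Σ _ : Unit, Σ _ : Fin n, Bool × Fin p) ≃ (Bool × Fin n × Fin p) where
  toFun x := (x.2.2.1, x.2.1, x.2.2.2)
  invFun x := ⟨(), x.2.1, (x.1, x.2.2)⟩
  left_inv _ := rfl
  right_inv _ := rfl

/-- the basis of the power -/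
noncomputable def Fam_basis (κ : Type) [Fintype κ] (n p : ℕ)
    (e : Basis (Bool × Fin p) ℂ (κ → ℂ)) : Basis (Bool × Fin n × Fin p) ℂ (W κ n) :=
  ((Pi.basis (fun _ : Unit => Pi.basis (fun _ : Fin n => e))).reindex (Fam_eqv n p))

lemma Fam_basis_apply (κ : Type) [Fintype κ] (n p : ℕ)
    (e : Basis (Bool × Fin p) ℂ (κ → ℂ)) (s : Bool) (m : Fin n) (i : Fin p) :
    Fam_basis κ n p e (s, m, i) = slotL (fun _ : Unit => n) () m (e (s, i)) := by
  unfold Fam_basis
  rw [Basis.reindex_apply]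
  show (Pi.basis (fun _ : Unit => Pi.basis (fun _ : Fin n => e))) ⟨(), m, (s, i)⟩ =
    slot (fun _ : Unit => n) () m (e (s, i))
  simp [slot]

lemma Fam_basis_repr (κ : Type) [Fintype κ] (n p : ℕ)
    (e : Basis (Bool × Fin p) ℂ (κ → ℂ)) (s : Bool) (m : Fin n) (i : Fin p) (v : W κ n) :
    (Fam_basis κ n p e).repr v (s, m, i) = e.repr (v () m) (s, i) := by
  unfold Fam_basis
  rw [Basis.repr_reindex_apply]
  show (Pi.basis (fun _ : Unit => Pi.basis (fun _ : Fin n => e))).repr v ⟨(), m, (s, i)⟩ = _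
  rw [Pi.basis_repr, Pi.basis_repr]

lemma Fam_coord_t {κ : Type} [Fintype κ] {p : ℕ}
    (e : Basis (Bool × Fin p) ℂ (κ → ℂ)) (X : Module.End ℂ (κ → ℂ)) (c : ℂ)
    (y : Matrix (Fin p) (Fin p) ℂ)
    (ht : ∀ j, X (e (true, j)) = ∑ i, y i j • e (true, i))
    (hf : ∀ i, X (e (false, i)) = c • e (false, i) - ∑ j, y i j • e (false, j))
    (w : κ → ℂ) (i : Fin p) :
    e.repr (X w) (true, i) = ∑ j, y i j * e.repr w (true, j) := by
  have h : (e.coord (true, i)) ∘ₗ X = ∑ j, y i j • e.coord (true, j) := by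
    refine e.ext ?_
    rintro ⟨s, j'⟩
    rw [LinearMap.comp_apply, LinearMap.sum_apply]
    cases s
    · rw [hf]
      simp
    · rw [ht]
      simp only [map_sum, map_smul, Basis.coord_apply, Basis.repr_self, Finsupp.single_apply,
        LinearMap.smul_apply, smul_eq_mul, Prod.mk.injEq, true_and]
      simp
  have h2 := LinearMap.congr_fun h w
  rw [LinearMap.comp_apply, LinearMap.sum_apply] at h2
  exact h2

lemma Fam_coord_f {κ : Type} [Fintype κ] {p : ℕ}
    (e : Basis (Bool × Fin p) ℂ (κ → ℂ)) (X : Module.End ℂ (κ → ℂ)) (c : ℂ)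
    (y : Matrix (Fin p) (Fin p) ℂ)
    (ht : ∀ j, X (e (true, j)) = ∑ i, y i j • e (true, i))
    (hf : ∀ i, X (e (false, i)) = c • e (false, i) - ∑ j, y i j • e (false, j))
    (w : κ → ℂ) (i : Fin p) :
    e.repr (X w) (false, i) = c * e.repr w (false, i) -
      ∑ j, y j i * e.repr w (false, j) := by
  have h : (e.coord (false, i)) ∘ₗ X = c • e.coord (false, i) -
      ∑ j, y j i • e.coord (false, j) := by
    refine e.ext ?_
    rintro ⟨s, j'⟩
    rw [LinearMap.comp_apply, LinearMap.sub_apply, LinearMap.sum_apply]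
    cases s
    · rw [hf]
      simp only [map_sum, map_smul, map_sub, Basis.coord_apply, Basis.repr_self,
        Finsupp.single_apply, LinearMap.smul_apply, smul_eq_mul, Prod.mk.injEq, true_and]
      simp
    · rw [ht]
      simp
  have h2 := LinearMap.congr_fun h w
  rw [LinearMap.comp_apply, LinearMap.sub_apply, LinearMap.sum_apply] at h2
  exact h2

/-- multilinear maps as functions -/
def Fam_coe (N : ℕ) (U : Type) [AddCommGroup U] [Module ℂ U] :
    MultilinearMap ℂ (fun _ : Fin N => U) ℂ →ₗ[ℂ] ((Fin N → U) → ℂ) where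
  toFun M := fun v => M v
  map_add' _ _ := rfl
  map_smul' _ _ := rfl

theorem thm_Fam : St_Fam := by
  intro κ _ _ ϖ P n k p α e h1 h2
  have hin : ∀ (y : Matrix (Fin p) (Fin p) ℂ) (L : Module.End ℂ (W κ n)),
      (∀ t j, L (Fam_basis κ n p e (true, t, j)) = ∑ i, y i j • Fam_basis κ n p e (true, t, i)) →
      (∀ t i, L (Fam_basis κ n p e (false, t, i)) =
        -∑ j, y i j • Fam_basis κ n p e (false, t, j)) → actForm L α = 0 := by
    intro y L hLt hLf
    obtain ⟨X, hX, hXt⟩ := h2 y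
    obtain ⟨y', hy't, hy'f⟩ := h1 X 0 hX
    have hyy : y' = y := by
      ext i j
      have h3 := congrArg (fun w => e.repr w (true, i)) ((hy't j).symm.trans (hXt j))
      simpa [Finsupp.single_apply] using h3
    subst hyy
    have hL : L = lift (fun _ : Unit => n) (fun _ => X) := by
      refine (Fam_basis κ n p e).ext ?_
      rintro ⟨s, m, i⟩
      cases s
      · rw [hLf, Fam_basis_apply, lift_slot, hy'f, zero_smul, zero_sub, map_neg, map_sum]
        simp only [Fam_basis_apply, map_smul]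
      · rw [hLt, Fam_basis_apply, lift_slot, hy't, map_sum]
        simp only [Fam_basis_apply, map_smul]
    rw [hL]
    have h4 := hX.form
    have h5 : actForm (lift (fun _ : Unit => n) (fun _ => X)) α = ((k : ℂ) * 0) • α := h4
    rw [h5, mul_zero, zero_smul]
  have hα := PSQ.thm_Fft (W κ n) (Fin n) p (2 * k) (Fam_basis κ n p e) α hin
  have hsub : {Φ | PP {β : W κ n →ₗ[ℂ] W κ n →ₗ[ℂ] ℂ | ∃ t t' : Fin n, ∀ u v,
      β u v = ∑ i, (Fam_basis κ n p e).repr u (true, t, i) *
        (Fam_basis κ n p e).repr v (false, t', i)} Finset.univ Φ} ⊆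
      (Fam_coe (2 * k) (W κ n)) '' {M | ∃ (π : Equiv.Perm (Fin (2 * k)))
        (β : Fin k → (W κ n →ₗ[ℂ] W κ n →ₗ[ℂ] ℂ)),
        (∀ a, β a ∈ invB (fun _ : Unit => n) (fun _ => P) α) ∧
        M = (prodBilin β).domDomCongr π} := by
    intro Φ hΦ
    obtain ⟨π, β, hβ, hΦ'⟩ := PP.exists_perm hΦ
    refine ⟨(prodBilin β).domDomCongr π, ⟨π, β, fun a => ?_, rfl⟩, hΦ'.symm⟩
    obtain ⟨m, m', hb⟩ := hβ a
    intro X hX u v
    obtain ⟨y, hyt, hyf⟩ := h1 (X.1 ()) X.2 hX
    rw [hb, hb, hb]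
    simp only [Fam_basis_repr]
    have e1 : ∀ w : W κ n, ∀ m'' : Fin n, lift (fun _ : Unit => n) X.1 w () m'' =
        X.1 () (w () m'') := fun w m'' => rfl
    simp only [e1, Fam_coord_t e _ _ y hyt hyf, Fam_coord_f e _ _ y hyt hyf]
    simp only [Finset.sum_mul, mul_sub, Finset.mul_sum, Finset.sum_sub_distrib]
    rw [Finset.sum_comm]
    have e2 : ∀ a b c d : ℂ, a = d → b = c → a + (b - d) = c := by
      intro a b c d h h'; rw [h, h']; ring
    refine e2 _ _ _ _ ?_ ?_
    · refine Finset.sum_congr rfl fun i _ => Finset.sum_congr rfl fun j _ => ?_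
      ring
    · refine Finset.sum_congr rfl fun i _ => ?_
      ring
  have h3 := Submodule.span_mono hsub hα
  rw [← Submodule.map_span] at h3
  obtain ⟨M, hM, hMα⟩ := h3
  have h4 : M = α := MultilinearMap.ext fun v => congrFun hMα v
  rw [h4] at hM
  exact hM

end BTL
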