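import Pool.Agent.BTL.St
import Pool.Agent.DWC.TorG
import Pool.Agent.Helper7.AFT.Prod31
import Pool.Agent.PSQ.Bridge

/-!
# BTL, Fin: the theorem
-/

set_option autoImplicit false

namespace BTL

open Module Matrix NumberField Pool.Agent.Helper7
open Pool.Agent.GPC (AbVar Form IsGrothendieck IsDivisorial)
open Pool.Agent.Ball (rot gAt HG Lorentz abstract_ball2 detDeg)
open PSQ (W Inv BetR DRA)

theorem thm_Fin (h1 : St_Abs) (h2 : St_QB) (h3 : St_Non) : St_Fin := by
  classical
  rintro A d J hg HQ ⟨z, hz, hf⟩ m k hm α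
  refine ⟨fun hα => ?_, Pool.Agent.Helper7.isGrothendieck_of_isDivisorial _ _ k α⟩
  have hlin := HQ.endo.linear
  let J' : Module.End ℂ A.H1 := IsLinearMap.mk' J hlin
  have hks : DWC.IsKs A d J' :=
    ⟨HQ.pos, HQ.endo, HQ.sq, fun u v => AFT.quad_skew HQ (by omega) u v⟩
  have hf' : finrank ℂ (A.filEigen J' z) = 1 := hf
  have hz0 : z ≠ 0 := AFT.z_ne HQ.pos hz
  obtain ⟨K, _, _, F, x, σ₀, hx, hσ, hone, hL⟩ := h2 A d J z hg HQ hz hf
  obtain ⟨hα1, hα2⟩ := hα
  have hB : BetR (pData A) m k (α : MultilinearMap ℂ (fun _ : Fin (2 * k) => W _ m) ℂ) := by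
    intro v hv
    apply hα2
    intro r i m
    exact (mem_pData_Q _ _).mp (hv r i m)
  have hD : DRA m k (α : MultilinearMap ℂ
      (fun _ : Fin (2 * k) => W (Fin A.g ⊕ Fin A.g) m) ℂ) :=
    fun v hv => hα1 v fun r i m j => hv r i m j
  refine isDivisorial_of_span (fun _ : Unit => A) (fun _ => m) k α ?_
  rcases Nat.even_or_odd A.g with he | ho
  · obtain ⟨r, hr⟩ := he
    refine h1 _ (pData A) K A.g F x σ₀ hg hone hL ?_ m k α hB hD ?_
    · by_contra hcon
      push Not at hcon
      have h4 := (DWC.All.TorG_ A d J' hks).1 (fun δ => by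
        have h5 : F.ρ x = J' := LinearMap.ext hx
        rw [← h5]
        exact hcon δ)
      have h6 := AFT.finrank_add (X := A) (J := J') (d := d) HQ.endo HQ.sq hz0 hz
      have h7 : z ^ 2 = PST.zd d ^ 2 := by
        rw [hz]
        unfold PST.zd
        rw [mul_pow, Complex.I_sq, ← Complex.ofReal_pow,
          Real.sq_sqrt (by exact_mod_cast HQ.pos.le)]
        push_cast
        ring
      rcases sq_eq_sq_iff_eq_or_eq_neg.mp h7 with h8 | h8
      · rw [← h8] at h4
        omega
      · have h9 : PST.zd d = -z := by rw [h8, neg_neg]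
        rw [h9, neg_neg] at h4
        omega
    · intro U V hUV hVU
      exact h3 A d J' r z K F x σ₀ (by omega) (by omega) hks hz hf' hx hσ hone m k _ hB hD U V
        hUV hVU
  · have hm1 : m = 1 := by
      rcases hm with h | h
      · exact h
      · exact absurd h (Nat.not_even_iff_odd.mpr ho)
    subst hm1
    refine abstract_ball2 (pData A) F α hg σ₀ hone.ne hL (fun τ ha hb => ?_) (fun v hv => ?_)
      (fun v hv => ?_) ?_
    · rcases hone.two τ with h | h
      · exact absurd h ha
      · exact absurd h hb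
    · exact hα2 v fun r i j => (mem_pData_Q _ _).mp (hv r i j)
    · exact hα1 v fun r i m j => hv r i m j
    · have h4 : detDeg A.g = 2 * A.g := by
        unfold detDeg
        rw [if_neg (Nat.not_even_iff_odd.mpr ho)]
      rw [h4, card_index]
      omega

end BTL
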