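import Pool.Agent.BTL.St

/-!
# BTL, Frm: the frame
-/

set_option autoImplicit false

namespace BTL

open Module Matrix NumberField Pool.Agent.Helper7
open Pool.Agent.Helper8.D (ent ent_act)
open scoped ComplexConjugate

section frm

variable {κ : Type} [Fintype κ] [DecidableEq κ] {ϖ : ℂ} {P : PData κ ϖ} {K : Type} [Field K]
  [NumberField K] {m : ℕ} (F : UF P K m) {x : K} {σ₀ : K →+* ℂ}

/-- The dual coefficients at the two places. -/
private noncomputable def Frm_G (τ : K →+* ℂ) (σ : K →+* ℂ) : Matrix (Fin m) (Fin m) ℂ :=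
  Matrix.of fun a b => P.ψ (F.e σ a) (F.e τ b)

private theorem Frm_iso (τ : K →+* ℂ) (hτ : conj (τ x) ≠ τ x) (u v : κ → ℂ)
    (hu : ∀ y, F.ρ y u = τ y • u) (hv : ∀ y, F.ρ y v = τ y • v) : P.ψ u v = 0 := by
  have h := F.hros x u v
  rw [hu, hv, map_smul, LinearMap.smul_apply, map_smul, smul_eq_mul, smul_eq_mul, F.hcc] at h
  have h2 : (conj (τ x) - τ x) * P.ψ u v = 0 := by
    rw [sub_mul, sub_eq_zero]
    exact h.symm
  exact (mul_eq_zero.mp h2).resolve_left (sub_ne_zero.mpr hτ)

private theorem Frm_ne (h : OneP x σ₀) : conj (σ₀ x) ≠ σ₀ x ∧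
    conj (ComplexEmbedding.conjugate σ₀ x) ≠ ComplexEmbedding.conjugate σ₀ x := by
  have h1 : conj (σ₀ x) = -σ₀ x := by
    rw [← h.imag, ComplexEmbedding.conjugate_coe_eq]
  have h2 : -σ₀ x ≠ σ₀ x := by
    intro h3
    apply h.nz
    have h4 : (2 : ℂ) * σ₀ x = 0 := by linear_combination -h3
    exact (mul_eq_zero.mp h4).resolve_left two_ne_zero
  refine ⟨by rw [h1]; exact h2, ?_⟩
  rw [ComplexEmbedding.conjugate_coe_eq, Complex.conj_conj, h1]
  exact Ne.symm h2

private theorem Frm_det (h : OneP x σ₀) :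
    IsUnit (Frm_G F (ComplexEmbedding.conjugate σ₀) σ₀).det := by
  rw [isUnit_iff_ne_zero]
  intro h0
  obtain ⟨v, hv, h1⟩ := Matrix.exists_mulVec_eq_zero_iff.mpr h0
  apply hv
  have h2 : (∑ b, v b • F.e (ComplexEmbedding.conjugate σ₀) b) = 0 := by
    apply P.hψnd
    intro w
    rw [P.hψalt, neg_eq_zero]
    rw [F.hsum w, map_sum P.ψ, LinearMap.sum_apply]
    refine Finset.sum_eq_zero fun τ _ => ?_
    rw [map_sum P.ψ, LinearMap.sum_apply]
    refine Finset.sum_eq_zero fun a _ => ?_
    rw [map_smul, LinearMap.smul_apply]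
    rcases h.two τ with h3 | h3
    · have h4 := congrFun h1 a
      rw [Matrix.mulVec, dotProduct, Pi.zero_apply] at h4
      rw [h3, map_sum]
      have h5 : ∑ b, P.ψ (F.e σ₀ a) (v b • F.e (ComplexEmbedding.conjugate σ₀) b) = 0 := by
        rw [← h4]
        refine Finset.sum_congr rfl fun b _ => ?_
        rw [map_smul, smul_eq_mul, Frm_G, Matrix.of_apply, mul_comm]
      rw [h5, smul_zero]
    · rw [Frm_iso F (x := x) τ (by rw [h3]; exact (Frm_ne h).2) _ _
        (fun y => F.rho_e y τ a) (fun y => ?_), smul_zero]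
      rw [map_sum, Finset.smul_sum]
      refine Finset.sum_congr rfl fun b _ => ?_
      rw [map_smul, F.rho_e, h3, smul_comm]
  funext b
  have h3 : F.co (ComplexEmbedding.conjugate σ₀) b
      (∑ b, v b • F.e (ComplexEmbedding.conjugate σ₀) b) = v b := by
    classical
    rw [map_sum, Finset.sum_eq_single b]
    · rw [map_smul, F.co_e, if_pos ⟨rfl, rfl⟩, smul_eq_mul, mul_one]
    · intro b' _ hb
      rw [map_smul, F.co_e, if_neg (fun h => hb h.2.symm), smul_zero]
    · intro h
      exact absurd (Finset.mem_univ _) h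
  rw [← h3, h2, map_zero, Pi.zero_apply]

/-- The vectors of the frame. -/
private noncomputable def Frm_v (σ₀ : K →+* ℂ) : Bool × Fin m → (κ → ℂ)
  | (true, j) => F.e σ₀ j
  | (false, i) => ∑ b, (Frm_G F (ComplexEmbedding.conjugate σ₀) σ₀)⁻¹ b i •
      F.e (ComplexEmbedding.conjugate σ₀) b

private theorem Frm_eig (i : Fin m) (y : K) : F.ρ y (Frm_v F σ₀ (false, i)) =
    ComplexEmbedding.conjugate σ₀ y • Frm_v F σ₀ (false, i) := by
  unfold Frm_v
  rw [map_sum, Finset.smul_sum]
  refine Finset.sum_congr rfl fun b _ => ?_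
  rw [map_smul, F.rho_e, smul_comm]

private theorem Frm_dual (h : OneP x σ₀) (a i : Fin m) :
    P.ψ (F.e σ₀ a) (Frm_v F σ₀ (false, i)) = if a = i then 1 else 0 := by
  unfold Frm_v
  rw [map_sum]
  have h1 : ∑ b, P.ψ (F.e σ₀ a) ((Frm_G F (ComplexEmbedding.conjugate σ₀) σ₀)⁻¹ b i •
      F.e (ComplexEmbedding.conjugate σ₀) b) =
      (Frm_G F (ComplexEmbedding.conjugate σ₀) σ₀ *
        (Frm_G F (ComplexEmbedding.conjugate σ₀) σ₀)⁻¹) a i := by
    rw [Matrix.mul_apply]
    refine Finset.sum_congr rfl fun b _ => ?_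
    rw [map_smul, smul_eq_mul, Frm_G, Matrix.of_apply, mul_comm]
  rw [h1, Matrix.mul_nonsing_inv _ (Frm_det F h), Matrix.one_apply]

private theorem Frm_tt (h : OneP x σ₀) (a b : Fin m) : P.ψ (F.e σ₀ a) (F.e σ₀ b) = 0 :=
  Frm_iso F (x := x) σ₀ (Frm_ne h).1 _ _ (fun y => F.rho_e y σ₀ a) fun y => F.rho_e y σ₀ b

private theorem Frm_ff (h : OneP x σ₀) (a : Fin m) (w : κ → ℂ)
    (hw : ∀ y, F.ρ y w = ComplexEmbedding.conjugate σ₀ y • w) :
    P.ψ (Frm_v F σ₀ (false, a)) w = 0 :=
  Frm_iso F (x := x) _ (Frm_ne h).2 _ _ (fun y => Frm_eig F a y) hw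

private theorem Frm_li (h : OneP x σ₀) : LinearIndependent ℂ (Frm_v F σ₀) := by
  classical
  rw [Fintype.linearIndependent_iff]
  intro g hg
  rw [Fintype.sum_prod_type, Fintype.sum_bool] at hg
  have hf : ∀ i, g (false, i) = 0 := by
    intro i
    have h1 := congrArg (P.ψ (F.e σ₀ i)) hg
    rw [map_add, map_sum, map_sum, map_zero, Finset.sum_eq_zero, zero_add,
      Finset.sum_eq_single i] at h1
    · rw [map_smul, Frm_dual F h, if_pos rfl, smul_eq_mul, mul_one] at h1
      exact h1
    · intro b _ hb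
      rw [map_smul, Frm_dual F h, if_neg (Ne.symm hb), smul_zero]
    · intro hi
      exact absurd (Finset.mem_univ _) hi
    · intro b _
      rw [map_smul]
      show g (true, b) • P.ψ (F.e σ₀ i) (F.e σ₀ b) = 0
      rw [Frm_tt F h, smul_zero]
  have ht : ∀ i, g (true, i) = 0 := by
    intro i
    have h1 := congrArg (fun v => P.ψ v (Frm_v F σ₀ (false, i))) hg
    simp only [hf, zero_smul, Finset.sum_const_zero, add_zero, map_zero,
      LinearMap.zero_apply] at h1
    rw [map_sum, LinearMap.sum_apply, Finset.sum_eq_single i] at h1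
    · rw [map_smul, LinearMap.smul_apply] at h1
      have h2 : P.ψ (Frm_v F σ₀ (true, i)) (Frm_v F σ₀ (false, i)) = 1 := by
        show P.ψ (F.e σ₀ i) (Frm_v F σ₀ (false, i)) = 1
        rw [Frm_dual F h, if_pos rfl]
      rw [h2, smul_eq_mul, mul_one] at h1
      exact h1
    · intro b _ hb
      rw [map_smul, LinearMap.smul_apply]
      show g (true, b) • P.ψ (F.e σ₀ b) (Frm_v F σ₀ (false, i)) = 0
      rw [Frm_dual F h, if_neg hb, smul_zero]
    · intro hi
      exact absurd (Finset.mem_univ _) hi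
  rintro ⟨b | b, i⟩
  · exact hf i
  · exact ht i

private theorem Frm_card (F' : UF P K m) (h : OneP x σ₀) :
    Fintype.card (Bool × Fin m) = finrank ℂ (κ → ℂ) := by
  rw [finrank_eq_card_basis F'.eb, Fintype.card_prod, Fintype.card_prod]
  congr 1
  refine Fintype.card_congr (Equiv.ofBijective
    (fun b : Bool => if b then σ₀ else ComplexEmbedding.conjugate σ₀) ⟨?_, ?_⟩)
  · rintro (_ | _) (_ | _) hb
    · rfl
    · exact absurd hb (by simpa using h.ne)
    · exact absurd hb (by simpa using h.ne.symm)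
    · rfl
  · intro τ
    rcases h.two τ with h3 | h3
    · exact ⟨true, by simp [h3]⟩
    · exact ⟨false, by simp [h3]⟩

end frm

theorem thm_Frm : St_Frm := by
  intro κ _ _ ϖ P K _ _ m F x σ₀ h
  classical
  have hli := Frm_li F h
  have hsp := hli.span_eq_top_of_card_eq_finrank' (Frm_card F h)
  let e : Basis (Bool × Fin m) ℂ (κ → ℂ) := Basis.mk hli (le_of_eq hsp.symm)
  have he : ∀ p, e p = Frm_v F σ₀ p := fun p => Basis.mk_apply _ _ p
  have het : ∀ j, e (true, j) = F.e σ₀ j := fun j => he _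
  refine ⟨e, het, ?_⟩
  intro X c hX hψ
  have h1 : ∀ j, X (e (true, j)) = ∑ i, ent F σ₀ X i j • e (true, i) := by
    intro j
    rw [het, ent_act F σ₀ X hX]
    refine Finset.sum_congr rfl fun i _ => ?_
    rw [het]
  refine ⟨h1, ?_⟩
  intro i
  rw [← sub_eq_zero]
  apply P.hψnd
  intro w
  rw [P.hψalt, neg_eq_zero]
  set d := X (e (false, i)) - (c • e (false, i) - ∑ j, ent F σ₀ X i j • e (false, j)) with hd
  have hw : w ∈ Submodule.span ℂ (Set.range e) := by rw [e.span_eq]; trivial
  induction hw using Submodule.span_induction with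
  | mem u hu =>
    obtain ⟨⟨b, a⟩, rfl⟩ := hu
    cases b with
    | false =>
      have hdy : ∀ y, F.ρ y d = ComplexEmbedding.conjugate σ₀ y • d := by
        intro y
        have e1 : F.ρ y (X (e (false, i))) =
            ComplexEmbedding.conjugate σ₀ y • X (e (false, i)) := by
          rw [← hX, he, Frm_eig, map_smul]
        have e2 : ∀ j, F.ρ y (e (false, j)) =
            ComplexEmbedding.conjugate σ₀ y • e (false, j) := fun j => by rw [he, Frm_eig]
        rw [hd, map_sub, map_sub, map_smul, map_sum, e1, e2, smul_sub, smul_sub,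
          Finset.smul_sum, smul_comm c]
        congr 2
        refine Finset.sum_congr rfl fun j _ => ?_
        rw [map_smul, e2, smul_comm]
      rw [he]
      exact Frm_ff F h a d hdy
    | true =>
      have hψe : ∀ j, P.ψ (e (true, a)) (e (false, j)) = if a = j then 1 else 0 := by
        intro j
        rw [he, he]
        exact Frm_dual F h a j
      have h3 := hψ (e (true, a)) (e (false, i))
      rw [h1 a, map_sum, LinearMap.sum_apply, Finset.sum_eq_single i] at h3
      · rw [map_smul, LinearMap.smul_apply] at h3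
        have h4 : P.ψ (e (true, i)) (e (false, i)) = 1 := by
          rw [he, he]
          show P.ψ (F.e σ₀ i) (Frm_v F σ₀ (false, i)) = 1
          rw [Frm_dual F h, if_pos rfl]
        rw [h4, smul_eq_mul, mul_one] at h3
        rw [hd, map_sub, map_sub, map_smul, map_sum, smul_eq_mul]
        have h5 : ∑ j, P.ψ (e (true, a)) (ent F σ₀ X i j • e (false, j)) = ent F σ₀ X i a := by
          rw [Finset.sum_eq_single a]
          · rw [map_smul, hψe, if_pos rfl, smul_eq_mul, mul_one]
          · intro b _ hb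
            rw [map_smul, hψe, if_neg (Ne.symm hb), smul_zero]
          · intro hb
            exact absurd (Finset.mem_univ _) hb
        rw [h5]
        linear_combination h3
      · intro b _ hb
        rw [map_smul, LinearMap.smul_apply]
        have h4 : P.ψ (e (true, b)) (e (false, i)) = 0 := by
          rw [he, he]
          show P.ψ (F.e σ₀ b) (Frm_v F σ₀ (false, i)) = 0
          rw [Frm_dual F h, if_neg hb]
        rw [h4, smul_zero]
      · intro hb
        exact absurd (Finset.mem_univ _) hb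
  | zero => rw [map_zero, LinearMap.zero_apply]
  | add u v _ _ hu hv => rw [map_add, LinearMap.add_apply, hu, hv, add_zero]
  | smul t u _ hu => rw [map_smul, LinearMap.smul_apply, hu, smul_zero]

end BTL
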