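import Pool.Agent.BTL.St

/-!
# BTL: the orthogonal Lie algebra is maximal
-/

set_option autoImplicit false

namespace BTL

open Matrix
open Pool.Agent.Ball (rot)

variable {m : ℕ}

theorem Max_rot_mul (i j : Fin m) (N : Matrix (Fin m) (Fin m) ℂ) (a b : Fin m) :
    (rot i j * N) a b = (if a = i then N j b else 0) - (if a = j then N i b else 0) := by
  unfold rot
  rw [Matrix.sub_mul, Matrix.sub_apply]
  congr 1
  · by_cases h : a = i
    · subst h
      simp
    · rw [if_neg h]
      exact Matrix.single_mul_apply_of_ne (1 : ℂ) i j a b h N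
  · by_cases h : a = j
    · subst h
      simp
    · rw [if_neg h]
      exact Matrix.single_mul_apply_of_ne (1 : ℂ) j i a b h N

theorem Max_mul_rot (i j : Fin m) (N : Matrix (Fin m) (Fin m) ℂ) (a b : Fin m) :
    (N * rot i j) a b = (if b = j then N a i else 0) - (if b = i then N a j else 0) := by
  unfold rot
  rw [Matrix.mul_sub, Matrix.sub_apply]
  congr 1
  · by_cases h : b = j
    · subst h
      simp
    · rw [if_neg h]
      exact Matrix.mul_single_apply_of_ne (1 : ℂ) i j a b h N
  · by_cases h : b = i
    · subst h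
      simp
    · rw [if_neg h]
      exact Matrix.mul_single_apply_of_ne (1 : ℂ) j i a b h N

/-- the bracket with a rotation -/
def Max_ad (i j : Fin m) (N : Matrix (Fin m) (Fin m) ℂ) : Matrix (Fin m) (Fin m) ℂ :=
  rot i j * N - N * rot i j

theorem Max_ad_apply (i j : Fin m) (N : Matrix (Fin m) (Fin m) ℂ) (a b : Fin m) :
    Max_ad i j N a b = (if a = i then N j b else 0) - (if a = j then N i b else 0) -
      ((if b = j then N a i else 0) - (if b = i then N a j else 0)) := by
  unfold Max_ad
  rw [Matrix.sub_apply, Max_rot_mul, Max_mul_rot]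

/-- the difference of two diagonal units -/
def Max_D (i j : Fin m) : Matrix (Fin m) (Fin m) ℂ := Matrix.single i i 1 - Matrix.single j j 1

/-- the symmetric off-diagonal unit -/
def Max_T (i j : Fin m) : Matrix (Fin m) (Fin m) ℂ := Matrix.single i j 1 + Matrix.single j i 1

/-- the square of the bracket on symmetric matrices -/
theorem Max_ad2 {i j : Fin m} (hij : i ≠ j) (N : Matrix (Fin m) (Fin m) ℂ)
    (hN : ∀ a b, N a b = N b a) (a b : Fin m) :
    Max_ad i j (Max_ad i j N) a b =
      if a = i then (if b = i then 2 * (N j j - N i i) else if b = j then -4 * N i j else - N i b)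
      else if a = j then
        (if b = i then -4 * N i j else if b = j then 2 * (N i i - N j j) else - N j b)
      else if b = i then - N i a else if b = j then - N j a else 0 := by
  have hji : j ≠ i := hij.symm
  simp only [Max_ad_apply]
  by_cases h1 : a = i
  · subst h1
    by_cases h2 : b = a
    · subst h2
      simp [hij, hji]
      ring
    · by_cases h3 : b = j
      · subst h3
        simp [hij, hji]
        rw [hN b a]
        ring
      · simp [hij, hji, h2, h3]
  · by_cases h1' : a = j
    · subst h1'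
      by_cases h2 : b = i
      · subst h2
        simp [hij, hji]
        rw [hN a b]
        ring
      · by_cases h3 : b = a
        · subst h3
          simp [hji, hij]
          ring
        · simp [hji, hij, h2, h3]
    · by_cases h2 : b = i
      · subst h2
        simp [hij, hji, h1, h1']
        rw [hN a b]
      · by_cases h3 : b = j
        · subst h3
          simp [hji, hij, h1, h1']
          rw [hN a b]
        · simp [h1, h1', h2, h3]

theorem Max_D_apply (i j a b : Fin m) : Max_D i j a b =
    (if a = i ∧ b = i then 1 else 0) - (if a = j ∧ b = j then 1 else 0) := by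
  unfold Max_D
  rw [Matrix.sub_apply, Matrix.single_apply, Matrix.single_apply]
  congr 1
  · by_cases h : a = i ∧ b = i
    · rw [if_pos h, if_pos ⟨h.1.symm, h.2.symm⟩]
    · rw [if_neg h, if_neg fun h' => h ⟨h'.1.symm, h'.2.symm⟩]
  · by_cases h : a = j ∧ b = j
    · rw [if_pos h, if_pos ⟨h.1.symm, h.2.symm⟩]
    · rw [if_neg h, if_neg fun h' => h ⟨h'.1.symm, h'.2.symm⟩]

theorem Max_T_apply (i j a b : Fin m) : Max_T i j a b =
    (if a = i ∧ b = j then 1 else 0) + (if a = j ∧ b = i then 1 else 0) := by
  unfold Max_T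
  rw [Matrix.add_apply, Matrix.single_apply, Matrix.single_apply]
  congr 1
  · by_cases h : a = i ∧ b = j
    · rw [if_pos h, if_pos ⟨h.1.symm, h.2.symm⟩]
    · rw [if_neg h, if_neg fun h' => h ⟨h'.1.symm, h'.2.symm⟩]
  · by_cases h : a = j ∧ b = i
    · rw [if_pos h, if_pos ⟨h.1.symm, h.2.symm⟩]
    · rw [if_neg h, if_neg fun h' => h ⟨h'.1.symm, h'.2.symm⟩]

theorem Max_ad2_symm {i j : Fin m} (hij : i ≠ j) (N : Matrix (Fin m) (Fin m) ℂ)
    (hN : ∀ a b, N a b = N b a) (a b : Fin m) :
    Max_ad i j (Max_ad i j N) a b = Max_ad i j (Max_ad i j N) b a := by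
  rw [Max_ad2 hij N hN, Max_ad2 hij N hN]
  by_cases h1 : a = i <;> by_cases h2 : a = j <;> by_cases h3 : b = i <;> by_cases h4 : b = j <;>
    simp_all

/-- the projection -/
theorem Max_proj {i j : Fin m} (hij : i ≠ j) (N : Matrix (Fin m) (Fin m) ℂ)
    (hN : ∀ a b, N a b = N b a) :
    Max_ad i j (Max_ad i j (Max_ad i j (Max_ad i j N))) + Max_ad i j (Max_ad i j N) =
      (12 * N i j) • Max_T i j + (6 * (N i i - N j j)) • Max_D i j := by
  have hji : j ≠ i := hij.symm
  ext a b
  rw [Matrix.add_apply, Matrix.add_apply, Matrix.smul_apply, Matrix.smul_apply, smul_eq_mul,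
    smul_eq_mul, Max_T_apply, Max_D_apply, Max_ad2 hij _ (Max_ad2_symm hij N hN)]
  simp only [Max_ad2 hij N hN]
  by_cases h1 : a = i
  · subst h1
    by_cases h2 : b = a
    · subst h2
      simp [hij, hji]
      ring
    · by_cases h3 : b = j
      · subst h3
        simp [hij, hji]
        ring
      · simp [hij, hji, h2, h3]
  · by_cases h1' : a = j
    · subst h1'
      by_cases h2 : b = i
      · subst h2
        simp [hij, hji]
        ring
      · by_cases h3 : b = a
        · subst h3
          simp [hji, hij]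
          ring
        · simp [hji, hij, h2, h3]
    · by_cases h2 : b = i
      · subst h2
        simp [hij, hji, h1, h1']
      · by_cases h3 : b = j
        · subst h3
          simp [hji, hij, h1, h1']
        · simp [h1, h1', h2, h3]

/-- a space of matrices which is closed under brackets with rotations -/
theorem Max_projMem (G : Submodule ℂ (Matrix (Fin m) (Fin m) ℂ))
    (had : ∀ i j, ∀ N ∈ G, Max_ad i j N ∈ G) {i j : Fin m} (hij : i ≠ j)
    (N : Matrix (Fin m) (Fin m) ℂ) (hN : ∀ a b, N a b = N b a) (h : N ∈ G) :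
    (12 * N i j) • Max_T i j + (6 * (N i i - N j j)) • Max_D i j ∈ G := by
  rw [← Max_proj hij N hN]
  exact G.add_mem (had _ _ _ (had _ _ _ (had _ _ _ (had _ _ _ h)))) (had _ _ _ (had _ _ _ h))

theorem Max_D_symm (i j a b : Fin m) : Max_D i j a b = Max_D i j b a := by
  rw [Max_D_apply, Max_D_apply]
  simp only [and_comm]

theorem Max_T_symm (i j a b : Fin m) : Max_T i j a b = Max_T i j b a := by
  rw [Max_T_apply, Max_T_apply, add_comm]
  simp only [and_comm]

theorem Max_ad_T {i j : Fin m} (hij : i ≠ j) :
    Max_ad i j (Max_T i j) = (2 : ℂ) • Max_D i j := by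
  have hji : j ≠ i := hij.symm
  ext a b
  rw [Matrix.smul_apply, smul_eq_mul, Max_ad_apply, Max_D_apply]
  simp only [Max_T_apply]
  by_cases h1 : a = i <;> by_cases h2 : a = j <;> by_cases h3 : b = i <;> by_cases h4 : b = j <;>
    simp_all <;> norm_num

theorem Max_ad_D {i j : Fin m} (hij : i ≠ j) :
    Max_ad i j (Max_D i j) = (-2 : ℂ) • Max_T i j := by
  have hji : j ≠ i := hij.symm
  ext a b
  rw [Matrix.smul_apply, smul_eq_mul, Max_ad_apply, Max_T_apply]
  simp only [Max_D_apply]
  by_cases h1 : a = i <;> by_cases h2 : a = j <;> by_cases h3 : b = i <;> by_cases h4 : b = j <;>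
    simp_all <;> norm_num

/-- from one difference of diagonal units to all matrices of trace zero -/
theorem Max_all (G : Submodule ℂ (Matrix (Fin m) (Fin m) ℂ))
    (hrot : ∀ i j, rot i j ∈ G)
    (had : ∀ i j, ∀ N ∈ G, Max_ad i j N ∈ G) {a b : Fin m} (hab : a ≠ b) (h : Max_D a b ∈ G)
    (y : Matrix (Fin m) (Fin m) ℂ) (hy : y.trace = 0) : y ∈ G := by
  have h1 : ∀ c, Max_D a c ∈ G := by
    intro c
    by_cases hca : c = a
    · have : Max_D a c = 0 := by
        rw [hca]
        unfold Max_D
        rw [sub_self]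
      rw [this]
      exact G.zero_mem
    · by_cases hcb : c = b
      · rw [hcb]
        exact h
      · have h2 := Max_projMem G had (Ne.symm hca) (Max_D a b) (Max_D_symm a b) h
        have e1 : Max_D a b a c = 0 := by
          rw [Max_D_apply]
          simp [hca, hcb]
        have e2 : Max_D a b a a = 1 := by
          rw [Max_D_apply]
          simp [hab]
        have e3 : Max_D a b c c = 0 := by
          rw [Max_D_apply]
          simp [hca, hcb]
        rw [e1, e2, e3, mul_zero, zero_smul, zero_add, sub_zero, mul_one] at h2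
        have h3 := G.smul_mem (6 : ℂ)⁻¹ h2
        rw [smul_smul, inv_mul_cancel₀ (by norm_num), one_smul] at h3
        exact h3
  have h2 : ∀ c d, Max_D c d ∈ G := by
    intro c d
    have e : Max_D c d = Max_D a d - Max_D a c := by
      unfold Max_D
      abel
    rw [e]
    exact G.sub_mem (h1 d) (h1 c)
  have h3 : ∀ c d, c ≠ d → Matrix.single c d (1 : ℂ) ∈ G := by
    intro c d hcd
    have h4 := had c d _ (h2 c d)
    rw [Max_ad_D hcd] at h4
    have h5 := G.smul_mem (-2 : ℂ)⁻¹ h4
    rw [smul_smul, inv_mul_cancel₀ (by norm_num), one_smul] at h5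
    have h6 := G.smul_mem (2 : ℂ)⁻¹ (G.add_mem h5 (hrot c d))
    have e : Max_T c d + rot c d = (2 : ℂ) • Matrix.single c d (1 : ℂ) := by
      unfold Max_T rot
      rw [two_smul]
      abel
    rw [e, smul_smul, inv_mul_cancel₀ (by norm_num), one_smul] at h6
    exact h6
  have h4 : y = ∑ i, ∑ j, (if i = j then y i i • Max_D i a else
      y i j • Matrix.single i j (1 : ℂ)) := by
    have h5 : ∀ i, ∑ j, (if i = j then y i i • Max_D i a else
        y i j • Matrix.single i j (1 : ℂ)) =
        (∑ j, Matrix.single i j (y i j)) - y i i • Matrix.single a a (1 : ℂ) := by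
      intro i
      rw [eq_sub_iff_add_eq]
      have h6 : y i i • Matrix.single a a (1 : ℂ) =
          ∑ j, if i = j then y i i • Matrix.single a a (1 : ℂ) else 0 := by
        rw [Finset.sum_ite_eq]
        simp
      rw [h6, ← Finset.sum_add_distrib]
      refine Finset.sum_congr rfl fun j _ => ?_
      by_cases hij : i = j
      · subst hij
        rw [if_pos rfl, if_pos rfl]
        unfold Max_D
        rw [smul_sub, sub_add_cancel, Matrix.smul_single, smul_eq_mul, mul_one]
      · rw [if_neg hij, if_neg hij, add_zero, Matrix.smul_single, smul_eq_mul, mul_one]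
    rw [Finset.sum_congr rfl fun i _ => h5 i, Finset.sum_sub_distrib, ← Finset.sum_smul,
      ← Matrix.matrix_eq_sum_single y]
    have h6 : ∑ i, y i i = 0 := hy
    rw [h6, zero_smul, sub_zero]
  rw [h4]
  refine G.sum_mem fun i _ => G.sum_mem fun j _ => ?_
  by_cases hij : i = j
  · rw [if_pos hij]
    exact G.smul_mem _ (h2 i a)
  · rw [if_neg hij]
    exact G.smul_mem _ (h3 i j hij)

/-- skew matrices -/
theorem Max_skew (G : Submodule ℂ (Matrix (Fin m) (Fin m) ℂ)) (hrot : ∀ i j, rot i j ∈ G)
    (S : Matrix (Fin m) (Fin m) ℂ) (hS : S.transpose = -S) : S ∈ G := by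
  have h1 : S = ∑ i, ∑ j, (S i j / 2) • rot i j := by
    have h2 : ∑ i, ∑ j, (S i j / 2) • rot i j =
        (∑ i, ∑ j, Matrix.single i j (S i j / 2)) - ∑ i, ∑ j, Matrix.single j i (S i j / 2) := by
      rw [← Finset.sum_sub_distrib]
      refine Finset.sum_congr rfl fun i _ => ?_
      rw [← Finset.sum_sub_distrib]
      refine Finset.sum_congr rfl fun j _ => ?_
      unfold rot
      rw [smul_sub, Matrix.smul_single, Matrix.smul_single, smul_eq_mul, mul_one]
    have h3 : ∑ i, ∑ j, Matrix.single i j (S i j / 2) = (2 : ℂ)⁻¹ • S := by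
      rw [Matrix.matrix_eq_sum_single ((2 : ℂ)⁻¹ • S)]
      refine Finset.sum_congr rfl fun i _ => Finset.sum_congr rfl fun j _ => ?_
      rw [Matrix.smul_apply, smul_eq_mul, div_eq_inv_mul]
    have h4 : ∑ i, ∑ j, Matrix.single j i (S i j / 2) = (2 : ℂ)⁻¹ • S.transpose := by
      rw [Finset.sum_comm, Matrix.matrix_eq_sum_single ((2 : ℂ)⁻¹ • S.transpose)]
      refine Finset.sum_congr rfl fun i _ => Finset.sum_congr rfl fun j _ => ?_
      rw [Matrix.smul_apply, smul_eq_mul, div_eq_inv_mul, Matrix.transpose_apply]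
    rw [h2, h3, h4, hS, smul_neg, sub_neg_eq_add, ← add_smul]
    norm_num
  rw [h1]
  exact G.sum_mem fun i _ => G.sum_mem fun j _ => G.smul_mem _ (hrot i j)

theorem thm_Max : St_Max := by
  intro m g U V hm hUV hVU hbr hrot ⟨M, hM, hconf⟩ y hy
  -- the conjugate
  set G : Submodule ℂ (Matrix (Fin m) (Fin m) ℂ) :=
    g.comap ((LinearMap.mulLeft ℂ U).comp (LinearMap.mulRight ℂ V)) with hG
  have hmem : ∀ N, N ∈ G ↔ U * N * V ∈ g := by
    intro N
    rw [hG, Submodule.mem_comap]
    show U * (N * V) ∈ g ↔ _
    rw [Matrix.mul_assoc]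
  have hr : ∀ i j, rot i j ∈ G := fun i j => (hmem _).2 (hrot i j)
  have had : ∀ i j, ∀ N ∈ G, Max_ad i j N ∈ G := by
    intro i j N hN
    rw [hmem]
    have h1 := hbr _ (hrot i j) _ ((hmem N).1 hN)
    have e : U * Max_ad i j N * V =
        U * rot i j * V * (U * N * V) - U * N * V * (U * rot i j * V) := by
      have e1 : U * rot i j * V * (U * N * V) = U * (rot i j * N) * V := by
        calc U * rot i j * V * (U * N * V) = U * rot i j * (V * U) * N * V := by
              noncomm_ring
          _ = U * (rot i j * N) * V := by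
              rw [hVU]
              noncomm_ring
      have e2 : U * N * V * (U * rot i j * V) = U * (N * rot i j) * V := by
        calc U * N * V * (U * rot i j * V) = U * N * (V * U) * rot i j * V := by
              noncomm_ring
          _ = U * (N * rot i j) * V := by
              rw [hVU]
              noncomm_ring
      rw [e1, e2]
      unfold Max_ad
      noncomm_ring
    rw [e]
    exact h1
  have hconj : ∀ X : Matrix (Fin m) (Fin m) ℂ, U * (V * X * U) * V = X := by
    intro X
    calc U * (V * X * U) * V = (U * V) * X * (U * V) := by noncomm_ring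
      _ = X := by rw [hUV, Matrix.one_mul, Matrix.mul_one]
  -- the symmetric part
  set N₀ := V * M * U with hN₀
  have hN₀G : N₀ ∈ G := by
    rw [hmem, hN₀, hconj]
    exact hM
  set S : Matrix (Fin m) (Fin m) ℂ := (2 : ℂ)⁻¹ • (N₀ - N₀.transpose) with hS
  have hSk : S.transpose = -S := by
    rw [hS, Matrix.transpose_smul, Matrix.transpose_sub, Matrix.transpose_transpose, ← smul_neg,
      neg_sub]
  have hSG : S ∈ G := Max_skew G hr S hSk
  set N : Matrix (Fin m) (Fin m) ℂ := N₀ - S with hN
  have hNG : N ∈ G := G.sub_mem hN₀G hSG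
  have hNs : ∀ a b, N a b = N b a := by
    intro a b
    rw [hN, hS]
    simp only [Matrix.sub_apply, Matrix.smul_apply, Matrix.transpose_apply, smul_eq_mul]
    ring
  obtain ⟨i, j, hij, hne⟩ : ∃ i j, i ≠ j ∧ (N i j ≠ 0 ∨ N i i ≠ N j j) := by
    by_contra hcon
    push Not at hcon
    apply hconf
    refine ⟨N ⟨0, by omega⟩ ⟨0, by omega⟩, S, hSk, ?_⟩
    have h1 : N = N ⟨0, by omega⟩ ⟨0, by omega⟩ • (1 : Matrix (Fin m) (Fin m) ℂ) := by
      ext a b
      rw [Matrix.smul_apply, smul_eq_mul]
      by_cases hab : a = b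
      · subst hab
        rw [Matrix.one_apply_eq, mul_one]
        by_cases ha : a = ⟨0, by omega⟩
        · rw [ha]
        · exact (hcon a _ ha).2
      · rw [Matrix.one_apply_ne hab, mul_zero]
        exact (hcon a b hab).1
    have h2 : M = U * (N + S) * V := by
      rw [hN, sub_add_cancel, hN₀, hconj]
    rw [h2, Matrix.mul_add, Matrix.add_mul]
    congr 1
    rw [h1, Matrix.mul_smul, Matrix.smul_mul, Matrix.mul_one, hUV]
    simp
  obtain ⟨a, b, hab, hD⟩ : ∃ a b, a ≠ b ∧ Max_D a b ∈ G := by
    have h1 := Max_projMem G had hij N hNs hNG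
    by_cases hd : N i i = N j j
    · have hnz : N i j ≠ 0 := hne.resolve_right (fun h => h hd)
      rw [hd, sub_self, mul_zero, zero_smul, add_zero] at h1
      have h2 := had i j _ h1
      have e : Max_ad i j ((12 * N i j) • Max_T i j) = (12 * N i j) • Max_ad i j (Max_T i j) := by
        unfold Max_ad
        rw [Matrix.mul_smul, Matrix.smul_mul, smul_sub]
      rw [e, Max_ad_T hij, smul_smul] at h2
      have hc : 12 * N i j * 2 ≠ 0 := by
        refine mul_ne_zero (mul_ne_zero (by norm_num) hnz) (by norm_num)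
      have h3 := G.smul_mem (12 * N i j * 2)⁻¹ h2
      rw [smul_smul, inv_mul_cancel₀ hc, one_smul] at h3
      exact ⟨i, j, hij, h3⟩
    · obtain ⟨k, hki, hkj⟩ : ∃ k : Fin m, k ≠ i ∧ k ≠ j := by
        by_contra hcon
        push Not at hcon
        have h2 : (Finset.univ : Finset (Fin m)) ⊆ {i, j} := by
          intro k _
          rw [Finset.mem_insert, Finset.mem_singleton]
          by_cases hk : k = i
          · exact Or.inl hk
          · exact Or.inr (hcon k hk)
        have h3 := (Finset.card_le_card h2).trans Finset.card_le_two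
        rw [Finset.card_univ, Fintype.card_fin] at h3
        omega
      set X : Matrix (Fin m) (Fin m) ℂ :=
        (12 * N i j) • Max_T i j + (6 * (N i i - N j j)) • Max_D i j with hX
      have hXs : ∀ a b, X a b = X b a := by
        intro a b
        rw [hX, Matrix.add_apply, Matrix.add_apply, Matrix.smul_apply, Matrix.smul_apply,
          Matrix.smul_apply, Matrix.smul_apply, Max_T_symm i j a b, Max_D_symm i j a b]
      have h2 := Max_projMem G had (Ne.symm hkj) X hXs h1
      have e1 : X j k = 0 := by
        rw [hX, Matrix.add_apply, Matrix.smul_apply, Matrix.smul_apply, Max_T_apply, Max_D_apply]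
        simp [hki, hkj]
      have e2 : X k k = 0 := by
        rw [hX, Matrix.add_apply, Matrix.smul_apply, Matrix.smul_apply, Max_T_apply, Max_D_apply]
        simp [hki, hkj]
      have e3 : X j j = -(6 * (N i i - N j j)) := by
        rw [hX, Matrix.add_apply, Matrix.smul_apply, Matrix.smul_apply, Max_T_apply, Max_D_apply]
        simp [hij.symm]
      rw [e1, e2, e3, mul_zero, zero_smul, zero_add, sub_zero] at h2
      have hc : 6 * -(6 * (N i i - N j j)) ≠ 0 := by
        refine mul_ne_zero (by norm_num) (neg_ne_zero.2 (mul_ne_zero (by norm_num) ?_))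
        exact sub_ne_zero.2 hd
      have h3 := G.smul_mem (6 * -(6 * (N i i - N j j)))⁻¹ h2
      rw [smul_smul, inv_mul_cancel₀ hc, one_smul] at h3
      exact ⟨j, k, Ne.symm hkj, h3⟩
  have hy' : (V * y * U).trace = 0 := by
    rw [Matrix.trace_mul_comm, ← Matrix.mul_assoc, hUV, Matrix.one_mul]
    exact hy
  have h5 := Max_all G hr had hab hD (V * y * U) hy'
  rw [hmem, hconj] at h5
  exact h5

end BTL
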