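import Pool.Agent.BTL.St

/-!
# BTL: no conformal structure
-/

set_option autoImplicit false

namespace BTL

open Module Matrix
open Pool.Agent.GPC (AbVar)

theorem NoC_pol_sum {X : AbVar} {ι : Type} (s : Finset ι) (f : ι → X.H1) (e : X.H1) :
    X.pol (∑ j ∈ s, f j) e = ∑ j ∈ s, X.pol (f j) e := by
  classical
  induction s using Finset.induction_on with
  | empty => simp [AbVar.pol]
  | insert a s ha ih =>
    rw [Finset.sum_insert ha, Finset.sum_insert ha, ← ih]
    simp only [AbVar.pol, Pi.add_apply, add_mul, mul_add]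
    rw [← Finset.sum_add_distrib]
    exact Finset.sum_congr rfl fun i _ => by ring

theorem NoC_pol_smul {X : AbVar} (c : ℂ) (u e : X.H1) :
    X.pol (c • u) e = c * X.pol u e := by
  simp only [AbVar.pol, Pi.smul_apply, smul_eq_mul, Finset.mul_sum]
  exact Finset.sum_congr rfl fun i _ => by ring

theorem thm_NoC (h1 : St_Hod) (h2 : St_RatI) (h3 : St_Dua) (h4 : St_DetB) (h5 : St_Vec)
    (h6 : St_Per) : St_NoC := by
  intro X d J r z 𝔤 b hr hg hK hz hf hA hb hJb hC
  obtain _ | k := r
  · omega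
  obtain ⟨b', hJb', hbb', hd1, hd2⟩ := h3 X d J z b hK hz hb hJb
  obtain ⟨β, hkill, hdet⟩ := h4 X d J z (k + 1) hg.symm b b' 𝔤 hK hz hA hJb hJb' hbb' hd1 hd2 hC
  obtain ⟨e, he0, hJe, hFe, hperp⟩ := h6 X d J z hK hz hf
  have hea : e = ∑ i, X.pol (b i) e • b' i := hd1 e hJe
  -- the coordinates of `e`
  have ha : (fun i : Fin (2 * (k + 1)) => X.pol (b (Fin.cast hg.symm i)) e) ≠ 0 := by
    intro h0
    apply he0
    rw [hea]
    refine Finset.sum_eq_zero fun i _ => ?_
    have := congrFun h0 (Fin.cast hg i)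
    simp only [Fin.cast_cast, Fin.cast_eq_self, Pi.zero_apply] at this
    rw [this, zero_smul]
  obtain ⟨x, hx, ⟨i0, hi0, hxi0⟩, hxp⟩ := h5 (k + 1) _ hr ha
  set v : Fin (2 * (k + 1)) → X.H1 := fun i : Fin (2 * (k + 1)) =>
    if (i : ℕ) < k + 1 then ∑ j, x i (Fin.cast hg j) • b' j else ∑ j, x i (Fin.cast hg j) • b j
    with hv
  have hβv : β v = x.det := by
    have h := hdet (x.submatrix id (Fin.cast hg))
    rw [Matrix.submatrix_submatrix] at h
    have h' : x.submatrix (id ∘ id) (Fin.cast hg ∘ Fin.cast hg.symm) = x := by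
      ext i j
      simp
    rw [h'] at h
    exact h
  have hJv1 : ∀ i : Fin (2 * (k + 1)), (i : ℕ) < k + 1 → J (v i) = z • v i := by
    intro i hi
    simp only [hv, hi, if_true, map_sum, map_smul, hJb', Finset.smul_sum]
    exact Finset.sum_congr rfl fun j _ => smul_comm _ _ _
  have hJv2 : ∀ i : Fin (2 * (k + 1)), k + 1 ≤ (i : ℕ) → J (v i) = (-z) • v i := by
    intro i hi
    have hi' : ¬ (i : ℕ) < k + 1 := by omega
    simp only [hv, hi', if_false, map_sum, map_smul, hJb, Finset.smul_sum]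
    exact Finset.sum_congr rfl fun j _ => smul_comm _ _ _
  have hpolv : ∀ i : Fin (2 * (k + 1)), k + 1 ≤ (i : ℕ) → X.pol (v i) e = 0 := by
    intro i hi
    have hi' : ¬ (i : ℕ) < k + 1 := by omega
    simp only [hv, hi', if_false]
    rw [NoC_pol_sum]
    simp only [NoC_pol_smul]
    have h := hxp i hi
    rw [← h]
    exact Fintype.sum_equiv (finCongr hg) _ _ fun j => by simp
  have hvi0 : v i0 = e := by
    conv_rhs => rw [hea]
    simp only [hv, hi0, if_true, hxi0, Fin.cast_cast, Fin.cast_eq_self]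
  have hspan := h2 X J 𝔤 hA (k + 1) β hkill
  have key : ∀ γ ∈ Submodule.span ℂ
      {γ : X.Class (2 * (k + 1)) | X.IsGrothendieckClass (k + 1) γ}, γ v = 0 := by
    intro γ hγ
    induction hγ using Submodule.span_induction with
    | mem γ hγ =>
      refine h1 X d J (2 * k + 1) k z (by omega) (by omega) hK hz hf γ hγ v hJv1 ?_ ?_
      · intro i hi
        exact ⟨hJv2 i hi, hperp _ (hJv2 i hi) (hpolv i hi)⟩
      · exact ⟨i0, hi0, by rw [hvi0]; exact hFe⟩
    | zero => rfl
    | add γ δ _ _ hγ hδ =>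
      change γ v + δ v = 0
      rw [hγ, hδ, add_zero]
    | smul c γ _ hγ =>
      change c • γ v = 0
      rw [hγ, smul_zero]
  exact hx (by rw [← hβv]; exact key β hspan)

end BTL
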