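import Pool.Agent.BTL.St

/-!
# BTL [Non]: there is a symmetry which is not conformal
-/

set_option autoImplicit false

namespace BTL

open Module Matrix NumberField Pool.Agent.Helper7
open Pool.Agent.GPC (AbVar Form IsGrothendieck IsDivisorial)
open Pool.Agent.Ball (rot gAt HG Lorentz pv pv_apply pv_injective act_pv)
open Pool.Agent.Helper8.D (ent)
open PSQ (W Inv BetR DRA)

/-- homotheties are symmetries -/
private theorem Non_homothety {κ : Type} [Fintype κ] [DecidableEq κ] {ϖ : ℂ} (P : PData κ ϖ)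
    (n k : ℕ) (α : MultilinearMap ℂ (fun _ : Fin (2 * k) => W κ n) ℂ) (c : ℂ) :
    IsInv (fun _ : Unit => n) (fun _ => P) α (fun _ => (c / 2) • (1 : Module.End ℂ (κ → ℂ)), c) where
  comm i j f _ v := by
    show (c / 2) • f v = f ((c / 2) • v)
    rw [map_smul]
  pol i u v := by
    show P.ψ ((c / 2) • u) v + P.ψ u ((c / 2) • v) = c * P.ψ u v
    rw [map_smul, LinearMap.smul_apply, map_smul, smul_eq_mul]
    ring
  form := by
    refine MultilinearMap.ext fun v => ?_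
    rw [actForm_apply]
    have h1 : ∀ r : Fin (2 * k), α (Function.update v r
        (lift (fun _ : Unit => n) (fun _ => (c / 2) • (1 : Module.End ℂ (κ → ℂ))) (v r))) =
        (c / 2) * α v := by
      intro r
      have h2 : lift (fun _ : Unit => n) (fun _ => (c / 2) • (1 : Module.End ℂ (κ → ℂ))) (v r) =
          (c / 2) • v r := rfl
      rw [h2, MultilinearMap.map_update_smul, Function.update_eq_self, smul_eq_mul]
    rw [Finset.sum_congr rfl fun r _ => h1 r, Finset.sum_const, Finset.card_univ, Fintype.card_fin,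
      nsmul_eq_mul, _root_.smul_apply, smul_eq_mul]
    push_cast
    ring

theorem thm_Non (h1 : St_AlgI) (h2 : St_NoC) : St_Non := by
  intro A d J r z K _ _ F x σ₀ hr hg hks hz hf hx hσ _ n k α hB hD U V hUV hVU
  by_contra hcon
  push Not at hcon
  obtain ⟨𝔤, h𝔤, hrat⟩ := h1 A J n k α hks.endo hB hD
  let b : Fin A.g → A.H1 := fun j => pv F σ₀ (U *ᵥ Pi.single j 1)
  have hb : LinearIndependent ℂ b := by
    have h3 : LinearIndependent ℂ (fun j : Fin A.g => (Pi.single j 1 : Fin A.g → ℂ)) := by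
      have h4 := (Pi.basisFun ℂ (Fin A.g)).linearIndependent
      have h5 : (⇑(Pi.basisFun ℂ (Fin A.g))) = fun j => (Pi.single j 1 : Fin A.g → ℂ) :=
        funext fun j => Pi.basisFun_apply ℂ (Fin A.g) j
      rwa [h5] at h4
    let f : (Fin A.g → ℂ) →ₗ[ℂ] A.H1 := (pv F σ₀).comp (Matrix.mulVecLin U)
    have hfi : Function.Injective f := by
      intro u v huv
      have h4 : U *ᵥ u = U *ᵥ v := pv_injective F σ₀ huv
      have h5 : V *ᵥ (U *ᵥ u) = V *ᵥ (U *ᵥ v) := by rw [h4]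
      rwa [mulVec_mulVec, mulVec_mulVec, hVU, one_mulVec, one_mulVec] at h5
    exact h3.map' f (LinearMap.ker_eq_bot.2 hfi)
  have hJb : ∀ i, J (b i) = (-z) • b i := by
    intro i
    rw [← hx, ← hσ]
    show F.ρ x (pv F σ₀ (U *ᵥ Pi.single i 1)) = σ₀ x • pv F σ₀ (U *ᵥ Pi.single i 1)
    rw [pv_apply, map_sum, Finset.smul_sum]
    refine Finset.sum_congr rfl fun a _ => ?_
    rw [map_smul, F.rho_e, smul_comm]
  refine h2 A d J r z 𝔤 b hr hg hks hz hf hrat hb hJb ?_
  rintro ⟨Z, c⟩ hZ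
  have hZi : IsInv (fun _ : Unit => n) (fun _ => pData A) α (fun _ => Z, c) := (h𝔤 (Z, c)).1 hZ
  have hh := Non_homothety (pData A) n k α c
  -- the element of multiplier zero
  have hY := IsInv.add _ _ _ hZi (IsInv.smul _ _ _ (-1 : ℂ) hh)
  have hM : ent F σ₀ (Z + (-1 : ℂ) • ((c / 2) • (1 : Module.End ℂ (Fin A.g ⊕ Fin A.g → ℂ)))) ∈
      gAt (fun _ : Unit => n) (fun _ => pData A) α () F σ₀ := by
    refine ⟨_, hY, ?_, rfl⟩
    show c + (-1 : ℂ) * c = 0
    ring
  obtain ⟨c', S, hS, hMS⟩ := hcon _ hM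
  refine ⟨c' + c / 2, S, hS, fun j => ?_⟩
  have hcomm : F.Comm (Z + (-1 : ℂ) • ((c / 2) • (1 : Module.End ℂ (Fin A.g ⊕ Fin A.g → ℂ)))) :=
    fun y v => hY.comm () () _ (F.hρ y) v
  have h3 := act_pv F hcomm σ₀ (U *ᵥ Pi.single j 1)
  rw [hMS] at h3
  have h4 : (c' • (1 : Matrix (Fin A.g) (Fin A.g) ℂ) + U * S * V) *ᵥ (U *ᵥ Pi.single j 1) =
      c' • (U *ᵥ Pi.single j 1) + ∑ i, S i j • (U *ᵥ Pi.single i 1) := by
    rw [add_mulVec, smul_mulVec, one_mulVec, mulVec_mulVec, Matrix.mul_assoc (U * S), hVU,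
      Matrix.mul_one, ← mulVec_mulVec]
    congr 1
    have h5 : S *ᵥ Pi.single j 1 = ∑ i, S i j • (Pi.single i 1 : Fin A.g → ℂ) := by
      funext a
      rw [mulVec_single_one]
      simp [Finset.sum_apply, Pi.single_apply]
    rw [h5, mulVec_sum]
    exact Finset.sum_congr rfl fun i _ => mulVec_smul _ _ _
  rw [h4, map_add, map_smul, map_sum] at h3
  have h6 : (Z + (-1 : ℂ) • ((c / 2) • (1 : Module.End ℂ (Fin A.g ⊕ Fin A.g → ℂ))))
      (pv F σ₀ (U *ᵥ Pi.single j 1)) = Z (b j) + (-1 : ℂ) • ((c / 2) • b j) := rfl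
  rw [h6] at h3
  show Z (b j) = (c' + c / 2) • b j + ∑ i, S i j • b i
  have h7 : Z (b j) = (c / 2) • b j + (Z (b j) + (-1 : ℂ) • ((c / 2) • b j)) := by
    rw [neg_one_smul]
    abel
  rw [h7, h3, add_smul]
  have h8 : ∑ i, (pv F σ₀) (S i j • (U *ᵥ Pi.single i 1)) = ∑ i, S i j • b i :=
    Finset.sum_congr rfl fun i _ => map_smul _ _ _
  rw [h8]
  show (c / 2) • b j + (c' • b j + ∑ i, S i j • b i) = c' • b j + (c / 2) • b j + ∑ i, S i j • b i
  abel

end BTL
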