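import Pool.Agent.BTL.St
import Pool.Agent.Helper7.AFT.Bal

/-!
# BTL [Per]: the orthogonal complement of the line in the filtration
-/

set_option autoImplicit false

namespace BTL

open Module
open Pool.Agent.GPC (AbVar)
open Pool.Agent.Helper7 (pData pData_ψ)
open Pool.Agent.Helper7.AFT (mem_filEigen z_ne pz pz_eigen pz_fil pz_add)

/-- The form is the standard one in the de Rham coordinates: a vector orthogonal to the
filtration is in the filtration. -/
private lemma Per_fil_of_perp (X : AbVar) (w : X.H1)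
    (h : ∀ u : X.H1, X.IsFil u → X.pol w u = 0) : X.IsFil w := by
  classical
  intro a
  have h1 := h (Pi.single (Sum.inr a) (1 : ℂ)) (fun b => by
    rw [Pi.single_eq_of_ne (by simp)])
  unfold AbVar.pol at h1
  rw [Finset.sum_eq_single a] at h1
  · simpa using h1
  · intro b _ hb
    have e1 : (Pi.single (Sum.inr a) (1 : ℂ) : X.H1) (Sum.inr b) = 0 :=
      Pi.single_eq_of_ne (fun hc => hb (Sum.inr_injective hc)) _
    have e2 : (Pi.single (Sum.inr a) (1 : ℂ) : X.H1) (Sum.inl b) = 0 :=
      Pi.single_eq_of_ne (by simp) _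
    rw [e1, e2]
    ring
  · intro hc
    exact absurd (Finset.mem_univ a) hc

/-- The eigenspaces are isotropic. -/
private lemma Per_iso (X : AbVar) (J : Module.End ℂ X.H1) (z : ℂ) (hz0 : z ≠ 0)
    (adj : ∀ u v, X.pol (J u) v = - X.pol u (J v)) (u v : X.H1) (hu : J u = z • u)
    (hv : J v = z • v) : X.pol u v = 0 := by
  have h2 := adj u v
  rw [hu, hv] at h2
  have h3 : X.pol (z • u) v = z * X.pol u v := by
    rw [← pData_ψ, ← pData_ψ, map_smul, LinearMap.smul_apply, smul_eq_mul]
  have h4 : X.pol u (z • v) = z * X.pol u v := by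
    rw [← pData_ψ, ← pData_ψ, map_smul, smul_eq_mul]
  rw [h3, h4] at h2
  have h5 : (2 * z) * X.pol u v = 0 := by linear_combination h2
  exact (mul_eq_zero.mp h5).resolve_left (mul_ne_zero two_ne_zero hz0)

theorem thm_Per : St_Per := by
  intro X d J z hK hz h1
  have hz0 := z_ne hK.pos hz
  have hl := hK.endo.linear
  have hz' : (-z) ^ 2 = -(d : ℂ) := by rw [neg_sq, hz]
  obtain ⟨e, he0, he⟩ := finrank_eq_one_iff'.mp h1
  have he1 := (mem_filEigen hl z e.1).mp e.2
  refine ⟨e.1, fun h0 => he0 (Subtype.ext h0), he1.1, he1.2, fun w hw hp => ?_⟩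
  refine Per_fil_of_perp X w fun u hu => ?_
  -- the component of `u` in the line
  obtain ⟨c, hc⟩ := he ⟨pz J z u, (mem_filEigen hl z _).mpr
    ⟨pz_eigen hl hK.sq hz u, pz_fil hK.endo u hu⟩⟩
  have hc' : c • e.1 = pz J z u := congrArg Subtype.val hc
  have h2 : X.pol w (pz J z u) = 0 := by
    rw [← hc', ← pData_ψ, map_smul, pData_ψ, hp, smul_zero]
  have h3 : X.pol w (pz J (-z) u) = 0 :=
    Per_iso X J (-z) (neg_ne_zero.mpr hz0) hK.adj w _ hw (pz_eigen hl hK.sq hz' u)
  rw [← pz_add (J := J) hz0 u, ← pData_ψ, map_add, pData_ψ, pData_ψ, h2, h3, add_zero]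

end BTL
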