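import Pool.Agent.BTL.St
import Pool.Agent.Helper7.AFT.Simple

/-!
# BTL, module QB: the field of multiplications and its Lorentzian place
-/

set_option autoImplicit false

open scoped ComplexConjugate

namespace BTL

open Module Matrix NumberField Pool.Agent.Helper7 Pool.Agent.GPC
open Pool.Agent.Ball (rot gAt HG Lorentz)

/-- the field, its action, and the embedding -/
theorem QB_field {A : AbVar} {d : ℚ} {J : A.H1 → A.H1} (hg : 3 ≤ A.g) (HQ : A.IsQuadBy d J)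
    {z : ℂ} (hz : z ^ 2 = -(d : ℂ)) (h1 : finrank ℂ (A.filEigen J z) = 1) :
    ∃ (K : Type) (_ : Field K) (_ : NumberField K) (F : UF (pData A) K A.g) (x : K)
      (σ₀ : K →+* ℂ), (∀ v, F.ρ x v = J v) ∧ σ₀ x = -z ∧ OneP x σ₀ ∧ Lorentz (HG F σ₀) := by
  obtain ⟨K, iF, iN, iC, ρ, x, C, h2, hx⟩ := HQ.exists_cm (by omega)
  obtain ⟨F, hF, -⟩ := nonempty_UFh A K ρ C A.g (by rw [h2])
  have hFx : ∀ v, F.ρ x v = J v := fun v => by rw [hF, hx]
  obtain ⟨i0⟩ : Nonempty (Fin A.g) := ⟨⟨0, by omega⟩⟩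
  have hz0 : z ≠ 0 := AFT.z_ne HQ.pos hz
  have hsq : ∀ (ν : K →+* ℂ), (ν x) ^ 2 = -(d : ℂ) := by
    intro ν
    have h1 := HQ.sq (F.e ν i0)
    rw [← hFx, ← hFx, F.rho_e, map_smul, F.rho_e, smul_smul, ← sub_eq_zero, ← sub_smul,
      smul_eq_zero] at h1
    rw [pow_two]
    exact sub_eq_zero.mp (h1.resolve_right (Pool.Agent.Helper24.e_ne F ν i0))
  have hcx : ∀ ν : K →+* ℂ, ComplexEmbedding.conjugate ν x = -ν x := by
    intro ν
    rw [ComplexEmbedding.conjugate_coe_eq, conj_of_sq HQ.pos (hsq ν)]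
  -- the embedding
  obtain ⟨σ, hσ⟩ : ∃ σ : K →+* ℂ, σ x = z := by
    obtain ⟨τ⟩ : Nonempty (K →+* ℂ) := inferInstance
    have h3 : (τ x - z) * (τ x + z) = 0 := by linear_combination hsq τ - hz
    rcases mul_eq_zero.mp h3 with h4 | h4
    · exact ⟨τ, sub_eq_zero.mp h4⟩
    · exact ⟨ComplexEmbedding.conjugate τ, by rw [hcx, eq_neg_of_add_eq_zero_left h4, neg_neg]⟩
  have h3 : A.eigenFil ρ σ = A.filEigen J z := by
    unfold AbVar.eigenFil AbVar.filEigen
    congr 1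
    ext v
    refine ⟨fun h => ⟨?_, h.2⟩, fun h => ⟨fun y => ?_, h.2⟩⟩
    · rw [← hx, h.1 x, hσ]
    · obtain ⟨a, b, hab⟩ := HQ.all (ρ y) (C.endo y)
      have h5 := hab (F.e σ i0)
      rw [← hF, ← hFx, F.rho_e, F.rho_e, hσ, smul_smul, ← add_smul, ← sub_eq_zero, ← sub_smul,
        smul_eq_zero] at h5
      have h6 := sub_eq_zero.mp (h5.resolve_right (Pool.Agent.Helper24.e_ne F σ i0))
      rw [hab, h.1, h6, smul_smul, ← add_smul]
  have hcc : ComplexEmbedding.conjugate (ComplexEmbedding.conjugate σ) = σ := by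
    ext y
    simp
  have hL := Pool.Agent.Helper83.Ball.lorentz_of_one F ρ hF σ (by rw [h3]; exact h1)
  refine ⟨K, iF, iN, F, x, ComplexEmbedding.conjugate σ, hFx, by rw [hcx, hσ], ⟨?_, ?_, ?_, ?_⟩,
    hL⟩
  · intro τ
    rcases Pool.Agent.Helper24.emb_two h2 σ τ with h | h
    · right
      rw [hcc, h]
    · exact Or.inl h
  · exact fun h => IsTotallyComplex.complexEmbedding_not_isReal _
      (ComplexEmbedding.isReal_iff.mpr h)
  · exact hcx _
  · rw [hcx, hσ]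
    exact neg_ne_zero.mpr hz0

theorem thm_QB : St_QB := fun _ _ _ _ hg HQ hz h1 => QB_field hg HQ hz h1

end BTL
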