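import Pool.Agent.BTL.St
import Pool.Agent.Helper7.Bridge2

/-!
# BTL [RatI]: the invariants of a rational space of symmetries are spanned by Grothendieck classes
-/

set_option autoImplicit false

namespace BTL

open Module Pool.Agent.Helper7
open Pool.Agent.GPC (AbVar)

/-- A multilinear form with rational values on the basis has rational values on all rational
vectors. -/
theorem RatI_rat (X : AbVar) {m : ℕ} (t : ℂ) (μ : MultilinearMap ℂ (fun _ : Fin m => X.H1) ℂ)
    (h : ∀ s : Fin m → (pData X).ι, ∃ q : ℚ, μ (fun r => (pData X).bB (s r)) = t * q)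
    (v : Fin m → X.H1) (hv : ∀ r, v r ∈ (pData X).Q) : ∃ q : ℚ, μ v = t * q := by
  classical
  choose a ha using fun r i => (pData X).repr_rat (v r) (hv r) i
  choose b hb using h
  have h1 : v = fun r => ∑ i, (a r i : ℂ) • (pData X).bB i := by
    funext r
    rw [← (pData X).bB.sum_repr (v r)]
    refine Finset.sum_congr rfl fun i _ => ?_
    rw [ha]
  refine ⟨∑ s : Fin m → (pData X).ι, (∏ r, a r (s r)) * b s, ?_⟩
  rw [h1, MultilinearMap.map_sum]
  push_cast
  rw [Finset.mul_sum]
  refine Finset.sum_congr rfl fun s _ => ?_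
  rw [MultilinearMap.map_smul_univ μ (fun r => (a r (s r) : ℂ)) (fun r => (pData X).bB (s r)), hb,
    smul_eq_mul]
  ring

theorem RatI_alt_smul {W : Type*} [AddCommGroup W] [Module ℂ W] {m : ℕ} (c : ℂ)
    (μ : MultilinearMap ℂ (fun _ : Fin m => W) ℂ) :
    MultilinearMap.alternatization (c • μ) = c • MultilinearMap.alternatization μ := by
  ext v
  rw [MultilinearMap.alternatization_apply, AlternatingMap.smul_apply,
    MultilinearMap.alternatization_apply, Finset.smul_sum]
  refine Finset.sum_congr rfl fun σ _ => ?_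
  rw [smul_comm]
  rfl

/-- The converse of the invariance of Grothendieck classes: derivations detect transcendence. -/
theorem RatI_alg (X : AbVar) (k : ℕ) (w : X.Class (2 * k)) (hr : X.IsRational k w)
    (h : ∀ (D : Derivation ℚ ℂ ℂ) (v : Fin (2 * k) → X.H1),
      ∑ r, w (Function.update v r ((pData X).N D (v r))) =
      (k : ℂ) * (D (2 * Real.pi * Complex.I) / (2 * Real.pi * Complex.I)) * w v) :
    X.IsGrothendieckClass k w := by
  refine ⟨fun v hv => isAlgebraic_of_derivation _ fun D => ?_, hr⟩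
  have h1 := derivForm_of_rat (pData X).bB D (2 * Real.pi * Complex.I)
    Complex.two_pi_I_ne_zero k (w : MultilinearMap ℂ (fun _ : Fin (2 * k) => X.H1) ℂ)
    (fun s => hr _ fun r => (mem_pData_Q X _).mp ((pData X).basis_mem _)) v
  have h2 : ∀ r, nabla (pData X).bB D (v r) = -((pData X).N D (v r)) := by
    intro r
    have h3 : (pData X).N D (v r) = nabla (Pi.basisFun ℂ (Fin X.g ⊕ Fin X.g)) D (v r) -
        nabla (pData X).bB D (v r) := rfl
    rw [h3, nabla_eq_zero (Pi.basisFun ℂ (Fin X.g ⊕ Fin X.g)) D (v r)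
      (fun k => by rw [Pi.basisFun_repr]; exact hv r k), zero_sub, neg_neg]
  have h4 : ∑ r, (w : MultilinearMap ℂ (fun _ : Fin (2 * k) => X.H1) ℂ)
      (Function.update v r (nabla (pData X).bB D (v r))) =
      -∑ r, w (Function.update v r ((pData X).N D (v r))) := by
    rw [← Finset.sum_neg_distrib]
    refine Finset.sum_congr rfl fun r _ => ?_
    rw [h2, AlternatingMap.coe_multilinearMap, AlternatingMap.map_update_neg]
  rw [h4, h D v] at h1
  have h5 : D (w v) = -((k : ℂ) * (D (2 * Real.pi * Complex.I) / (2 * Real.pi * Complex.I)) *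
      w v) + (k : ℂ) * (D (2 * Real.pi * Complex.I) / (2 * Real.pi * Complex.I)) * w v := h1
  rw [h5, neg_add_cancel]

/-- the symmetries of a form, as a subspace -/
noncomputable def RatI_sym (X : AbVar) (k : ℕ)
    (γ : MultilinearMap ℂ (fun _ : Fin (2 * k) => X.H1) ℂ) :
    Submodule ℂ (Module.End ℂ X.H1 × ℂ) where
  carrier := {Z | actForm Z.1 γ = ((k : ℂ) * Z.2) • γ}
  zero_mem' := by
    show actForm 0 γ = ((k : ℂ) * 0) • γ
    rw [actForm_zero, mul_zero, zero_smul]
  add_mem' := by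
    intro Y Z hY hZ
    show actForm (Y.1 + Z.1) γ = ((k : ℂ) * (Y.2 + Z.2)) • γ
    have hY' : actForm Y.1 γ = ((k : ℂ) * Y.2) • γ := hY
    have hZ' : actForm Z.1 γ = ((k : ℂ) * Z.2) • γ := hZ
    rw [actForm_add, hY', hZ', mul_add, add_smul]
  smul_mem' := by
    intro c Z hZ
    show actForm (c • Z.1) γ = ((k : ℂ) * (c * Z.2)) • γ
    have hZ' : actForm Z.1 γ = ((k : ℂ) * Z.2) • γ := hZ
    rw [actForm_smul, hZ', smul_smul]
    congr 1
    ring

theorem RatI_mem_sym {X : AbVar} {k : ℕ} {γ : MultilinearMap ℂ (fun _ : Fin (2 * k) => X.H1) ℂ}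
    {Z : Module.End ℂ X.H1 × ℂ} : Z ∈ RatI_sym X k γ ↔ actForm Z.1 γ = ((k : ℂ) * Z.2) • γ :=
  Iff.rfl

/-- a rational class whose symmetries contain the comparison operators -/
theorem RatI_gr (X : AbVar) (k : ℕ) (w : X.Class (2 * k)) (hr : X.IsRational k w)
    (h : ∀ D : Derivation ℚ ℂ ℂ, ((pData X).N D, D (2 * Real.pi * Complex.I) /
      (2 * Real.pi * Complex.I)) ∈
      RatI_sym X k (w : MultilinearMap ℂ (fun _ : Fin (2 * k) => X.H1) ℂ)) :
    X.IsGrothendieckClass k w := by
  refine RatI_alg X k w hr fun D v => ?_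
  have h1 := RatI_mem_sym.mp (h D)
  have h2 : actForm ((pData X).N D) (w : MultilinearMap ℂ (fun _ : Fin (2 * k) => X.H1) ℂ) v =
    (((k : ℂ) * (D (2 * Real.pi * Complex.I) / (2 * Real.pi * Complex.I))) •
      (w : MultilinearMap ℂ (fun _ : Fin (2 * k) => X.H1) ℂ)) v := by
    rw [h1]
  rw [actForm_apply] at h2
  exact h2

theorem RatI_sum_apply (X : AbVar) {m k : ℕ} (f : Fin m → X.Class k) (v : Fin k → X.H1) :
    (∑ l, f l) v = ∑ l, f l v := by
  let e : X.Class k →+ ℂ := { toFun := fun g => g v, map_zero' := rfl, map_add' := fun _ _ => rfl }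
  exact map_sum e f Finset.univ

theorem thm_RatI : St_RatI := by
  classical
  intro X J 𝔤 h𝔤 k β hβ
  set P := pData X with hP
  obtain ⟨t, ht⟩ : ∃ t : ℂ, t = (2 * Real.pi * Complex.I) ^ k := ⟨_, rfl⟩
  have ht0 : t ≠ 0 := by
    rw [ht]
    exact pow_ne_zero _ Complex.two_pi_I_ne_zero
  obtain ⟨m, c, y, hc, hy⟩ := exists_rat_decomp (X := Fin (2 * k) → P.ι)
    (fun s => t⁻¹ * β (fun r => P.bB (s r)))
  -- the forms
  let μ : Fin m → MultilinearMap ℂ (fun _ : Fin (2 * k) => X.H1) ℂ := fun l =>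
    ∑ s : Fin (2 * k) → P.ι, (t * (y l s : ℂ)) •
      (MultilinearMap.mkPiAlgebra ℂ (Fin (2 * k)) ℂ).compLinearMap (fun r => P.bB.coord (s r))
  have hμ : ∀ l (s : Fin (2 * k) → P.ι), μ l (fun r => P.bB (s r)) = t * (y l s : ℂ) := by
    intro l s
    have e1 : μ l (fun r => P.bB (s r)) = ∑ s' : Fin (2 * k) → P.ι, (t * (y l s' : ℂ)) *
        ∏ r, P.bB.repr (P.bB (s r)) (s' r) := by
      show (∑ s' : Fin (2 * k) → P.ι, (t * (y l s' : ℂ)) •
        (MultilinearMap.mkPiAlgebra ℂ (Fin (2 * k)) ℂ).compLinearMap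
          (fun r => P.bB.coord (s' r))) (fun r => P.bB (s r)) = _
      rw [_root_.sum_apply]
      refine Finset.sum_congr rfl fun s' _ => ?_
      rw [_root_.smul_apply, MultilinearMap.compLinearMap_apply, MultilinearMap.mkPiAlgebra_apply,
        smul_eq_mul]
      rfl
    rw [e1, Finset.sum_eq_single s]
    · have e2 : ∏ r, P.bB.repr (P.bB (s r)) (s r) = 1 := by
        refine Finset.prod_eq_one fun r _ => ?_
        rw [Basis.repr_self, Finsupp.single_eq_same]
      rw [e2, mul_one]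
    · intro s' _ hs
      obtain ⟨r, hr⟩ := Function.ne_iff.mp hs
      have e2 : ∏ r, P.bB.repr (P.bB (s r)) (s' r) = 0 := by
        refine Finset.prod_eq_zero (Finset.mem_univ r) ?_
        rw [Basis.repr_self, Finsupp.single_eq_of_ne hr]
      rw [e2, mul_zero]
    · intro h
      exact absurd (Finset.mem_univ s) h
  have hsum : ∑ l, c l • μ l = (β : MultilinearMap ℂ (fun _ : Fin (2 * k) => X.H1) ℂ) := by
    apply Basis.ext_multilinear (fun _ => P.bB)
    intro s
    rw [_root_.sum_apply]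
    have e1 := hy s
    have e2 : ∑ l, (c l • μ l) (fun r => P.bB (s r)) = t * ∑ l, c l * (y l s : ℂ) := by
      rw [Finset.mul_sum]
      refine Finset.sum_congr rfl fun l _ => ?_
      rw [_root_.smul_apply, hμ, smul_eq_mul]
      ring
    rw [e2, ← e1, ← mul_assoc, mul_inv_cancel₀ ht0, one_mul]
    rfl
  set F : ℂ := ((Nat.factorial (2 * k) : ℕ) : ℂ) with hF
  have hF0 : F ≠ 0 := by
    rw [hF]
    exact_mod_cast Nat.factorial_ne_zero (2 * k)
  let γ : Fin m → X.Class (2 * k) := fun l => F⁻¹ • MultilinearMap.alternatization (μ l)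
  have hβγ : β = ∑ l, c l • γ l := by
    have e1 : ∑ l, c l • γ l = F⁻¹ • MultilinearMap.alternatization (∑ l, c l • μ l) := by
      rw [map_sum, Finset.smul_sum]
      refine Finset.sum_congr rfl fun l _ => ?_
      rw [RatI_alt_smul, smul_comm]
    rw [e1, hsum, AlternatingMap.coe_alternatization, Fintype.card_fin, ← Nat.cast_smul_eq_nsmul ℂ,
      smul_smul, ← hF, inv_mul_cancel₀ hF0, one_smul]
  have hγrat : ∀ l (v : Fin (2 * k) → X.H1), (∀ r, v r ∈ P.Q) → ∃ q : ℚ, γ l v = t * q := by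
    intro l v hv
    have h1 : ∀ σ : Equiv.Perm (Fin (2 * k)), ∃ q : ℚ, μ l (fun r => v (σ r)) = t * q :=
      fun σ => RatI_rat X t (μ l) (fun s => ⟨y l s, hμ l s⟩) _ (fun r => hv _)
    choose q hq using h1
    refine ⟨(Nat.factorial (2 * k) : ℚ)⁻¹ * ∑ σ : Equiv.Perm (Fin (2 * k)),
      ((Equiv.Perm.sign σ : ℤ) : ℚ) * q σ, ?_⟩
    show (F⁻¹ • MultilinearMap.alternatization (μ l)) v = _
    rw [AlternatingMap.smul_apply, MultilinearMap.alternatization_apply, smul_eq_mul]
    have e2 : ∑ σ : Equiv.Perm (Fin (2 * k)), Equiv.Perm.sign σ • (μ l).domDomCongr σ v =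
        t * ∑ σ : Equiv.Perm (Fin (2 * k)), ((Equiv.Perm.sign σ : ℤ) : ℂ) * (q σ : ℂ) := by
      rw [Finset.mul_sum]
      refine Finset.sum_congr rfl fun σ _ => ?_
      rw [MultilinearMap.domDomCongr_apply, hq, Units.smul_def, zsmul_eq_mul]
      ring
    rw [e2, hF]
    push_cast
    ring
  have hsymR : ∀ l, ∀ Z ∈ 𝔤, (∀ v, X.IsBetti v → X.IsBetti (Z.1 v)) → (∃ q : ℚ, Z.2 = q) →
      Z ∈ RatI_sym X k (γ l : MultilinearMap ℂ (fun _ : Fin (2 * k) => X.H1) ℂ) := by
    intro l Z hZ hZB hZq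
    show actForm Z.1 (γ l : MultilinearMap ℂ (fun _ : Fin (2 * k) => X.H1) ℂ) =
      ((k : ℂ) * Z.2) • (γ l : MultilinearMap ℂ (fun _ : Fin (2 * k) => X.H1) ℂ)
    apply Basis.ext_multilinear (fun _ => P.bB)
    intro s
    rw [_root_.smul_apply, smul_eq_mul, actForm_apply]
    have hZQ : ∀ v ∈ P.Q, Z.1 v ∈ P.Q := by
      intro v hv
      rw [hP, mem_pData_Q] at hv ⊢
      exact hZB v hv
    obtain ⟨a, ha⟩ := hZq
    have h1 : ∀ l', ∃ q : ℚ, (∑ r, γ l' (Function.update (fun r => P.bB (s r)) r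
        (Z.1 (P.bB (s r))))) - (k : ℂ) * Z.2 * γ l' (fun r => P.bB (s r)) = t * q := by
      intro l'
      have h2 : ∀ r, ∃ q : ℚ, γ l' (Function.update (fun r => P.bB (s r)) r
          (Z.1 (P.bB (s r)))) = t * q := by
        intro r
        apply hγrat
        intro r'
        by_cases h : r' = r
        · subst h
          rw [Function.update_self]
          exact hZQ _ (P.basis_mem _)
        · rw [Function.update_of_ne h]
          exact P.basis_mem _
      choose q hq using h2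
      obtain ⟨b, hb⟩ := hγrat l' (fun r => P.bB (s r)) (fun r => P.basis_mem _)
      refine ⟨(∑ r, q r) - k * a * b, ?_⟩
      rw [Finset.sum_congr rfl (fun r _ => hq r), ha, hb]
      push_cast
      rw [mul_sub, Finset.mul_sum]
      ring
    have h2 := eq_zero_of_indep c hc t ht0
      (fun l' => (∑ r, γ l' (Function.update (fun r => P.bB (s r)) r
        (Z.1 (P.bB (s r))))) - (k : ℂ) * Z.2 * γ l' (fun r => P.bB (s r))) h1 (by
        have h3 := hβ Z hZ (fun r => P.bB (s r))
        rw [hβγ] at h3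
        have h4 : ∀ v : Fin (2 * k) → X.H1, (∑ l, c l • γ l) v = ∑ l, c l * γ l v := by
          intro v
          rw [RatI_sum_apply]
          refine Finset.sum_congr rfl fun l _ => ?_
          rw [AlternatingMap.smul_apply, smul_eq_mul]
        simp only [h4] at h3
        rw [Finset.sum_comm] at h3
        have h5 : ∑ l', c l' * ((∑ r, γ l' (Function.update (fun r => P.bB (s r)) r
            (Z.1 (P.bB (s r))))) - (k : ℂ) * Z.2 * γ l' (fun r => P.bB (s r))) =
            (∑ l', ∑ r, c l' * γ l' (Function.update (fun r => P.bB (s r)) r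
              (Z.1 (P.bB (s r))))) -
            (k : ℂ) * Z.2 * ∑ l', c l' * γ l' (fun r => P.bB (s r)) := by
          rw [Finset.mul_sum, ← Finset.sum_sub_distrib]
          refine Finset.sum_congr rfl fun l' _ => ?_
          rw [mul_sub, Finset.mul_sum]
          ring
        rw [h5, h3, sub_self]) l
    exact sub_eq_zero.mp h2
  have hsym : ∀ l, 𝔤 ≤ RatI_sym X k (γ l : MultilinearMap ℂ (fun _ : Fin (2 * k) => X.H1) ℂ) := by
    intro l Z hZ
    have h1 := h𝔤.rat Z hZ
    refine (Submodule.span_le.mpr ?_) h1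
    rintro Z' ⟨hZ', hB, hq⟩
    exact hsymR l Z' hZ' hB hq
  have hgr : ∀ l, X.IsGrothendieckClass k (γ l) := by
    intro l
    refine RatI_gr X k (γ l) ?_ fun D => hsym l (h𝔤.mem D)
    intro v hv
    obtain ⟨q, hq⟩ := hγrat l v (fun r => (mem_pData_Q X _).mpr (hv r))
    exact ⟨q, by rw [hq, ht]⟩
  rw [hβγ]
  exact Submodule.sum_mem _ fun l _ => Submodule.smul_mem _ _ (Submodule.subset_span (hgr l))

end BTL
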