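import Pool.Agent.BTL.St

/-!
# BTL: rotations, for all powers
-/

set_option autoImplicit false

namespace BTL

open Module Matrix NumberField Pool.Agent.Helper7
open Pool.Agent.Ball
open PSQ (W Inv BetR DRA)

theorem thm_Rots : St_Rots := by
  classical
  intro κ _ _ P K _ _ m F x σ₀ hm hP hL n k α hB hA
  have hϖ : (2 * Real.pi * Complex.I : ℂ) ≠ 0 := Complex.two_pi_I_ne_zero
  obtain ⟨B, hBc, hBs, hBd, hB0⟩ := concentrated (fun _ : Unit => n) (fun _ : Unit => P) α () F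
    hϖ hB hA hm σ₀ hL (fun τ h1 h2 => absurd (hP.two τ) (by
      rintro (h | h)
      · exact h1 h
      · exact h2 h))
  obtain ⟨U, V, h1, h2, h3⟩ := Pool.Agent.Helper36.Ball.M5' hm (HG F σ₀) hL hL.nondeg
    (gAt (fun _ : Unit => n) (fun _ : Unit => P) α () F σ₀)
    (cAt (fun _ : Unit => n) (fun _ : Unit => P) α () F σ₀)
    (gAt_br (fun _ : Unit => n) (fun _ : Unit => P) α () F σ₀)
    (cAt_le (fun _ : Unit => n) (fun _ : Unit => P) α () F σ₀)
    (cAt_br (fun _ : Unit => n) (fun _ : Unit => P) α () F σ₀)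
    (gAt_adj (fun _ : Unit => n) (fun _ : Unit => P) α () F hϖ hB σ₀)
    (gAt_irr (fun _ : Unit => n) (fun _ : Unit => P) α () F hϖ hB hA σ₀)
    B hBc hBs hBd hB0
  exact ⟨U, V, h1, h2, fun i j =>
    cAt_le (fun _ : Unit => n) (fun _ : Unit => P) α () F σ₀ (h3 i j)⟩

end BTL
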