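import Pool.Agent.BTL.St

/-!
# BTL [Vec]: linear algebra
-/

set_option autoImplicit false

namespace BTL

open Module Matrix

/-- the hyperplane orthogonal to `a` -/
def Vec_perp {m : ℕ} (a : Fin m → ℂ) : Submodule ℂ (Fin m → ℂ) where
  carrier := {w | ∑ j, w j * a j = 0}
  zero_mem' := by simp
  add_mem' := by
    intro u v hu hv
    change ∑ j, u j * a j = 0 at hu
    change ∑ j, v j * a j = 0 at hv
    change ∑ j, (u + v) j * a j = 0
    simp only [Pi.add_apply, add_mul, Finset.sum_add_distrib, hu, hv, add_zero]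
  smul_mem' := by
    intro c u hu
    change ∑ j, u j * a j = 0 at hu
    change ∑ j, (c • u) j * a j = 0
    simp only [Pi.smul_apply, smul_eq_mul, mul_assoc, ← Finset.mul_sum, hu, mul_zero]

lemma Vec_mem {m : ℕ} (a w : Fin m → ℂ) : w ∈ Vec_perp a ↔ ∑ j, w j * a j = 0 := Iff.rfl

/-- the functional `w ↦ ∑ w j * a j` -/
def Vec_fun {m : ℕ} (a : Fin m → ℂ) : (Fin m → ℂ) →ₗ[ℂ] ℂ where
  toFun w := ∑ j, w j * a j
  map_add' := by
    intro u v
    simp only [Pi.add_apply, add_mul, Finset.sum_add_distrib]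
  map_smul' := by
    intro c u
    simp only [Pi.smul_apply, smul_eq_mul, mul_assoc, ← Finset.mul_sum, RingHom.id_apply]

lemma Vec_ker {m : ℕ} (a : Fin m → ℂ) : LinearMap.ker (Vec_fun a) = Vec_perp a := by
  ext w
  rw [LinearMap.mem_ker, Vec_mem]
  rfl

lemma Vec_finrank {m : ℕ} (a : Fin m → ℂ) : m ≤ finrank ℂ (Vec_perp a) + 1 := by
  have h := (Vec_fun a).finrank_range_add_finrank_ker
  rw [Vec_ker, Module.finrank_fin_fun] at h
  have h1 : finrank ℂ (LinearMap.range (Vec_fun a)) ≤ 1 := by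
    calc finrank ℂ (LinearMap.range (Vec_fun a)) ≤ finrank ℂ ℂ := Submodule.finrank_le _
      _ = 1 := Module.finrank_self ℂ
  omega

lemma Vec_step {m k : ℕ} (a : Fin m → ℂ) (v : Fin k → (Fin m → ℂ)) (hk : k + 1 < m) :
    ∃ y ∈ Vec_perp a, y ∉ Submodule.span ℂ (Set.range v) := by
  by_contra hcon
  push Not at hcon
  have hle : Vec_perp a ≤ Submodule.span ℂ (Set.range v) := fun y hy => hcon y hy
  have h1 : finrank ℂ (Vec_perp a) ≤ finrank ℂ (Submodule.span ℂ (Set.range v)) :=
    Submodule.finrank_mono hle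
  have h2 : finrank ℂ (Submodule.span ℂ (Set.range v)) ≤ k := by
    calc finrank ℂ (Submodule.span ℂ (Set.range v)) ≤ Fintype.card (Fin k) :=
        finrank_range_le_card v
      _ = k := Fintype.card_fin k
  have h3 := Vec_finrank a
  omega

lemma Vec_step2 {m k : ℕ} (v : Fin k → (Fin m → ℂ)) (hk : k < m) :
    ∃ y, y ∉ Submodule.span ℂ (Set.range v) := by
  by_contra hcon
  push Not at hcon
  have hle : (⊤ : Submodule ℂ (Fin m → ℂ)) ≤ Submodule.span ℂ (Set.range v) :=
    fun y _ => hcon y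
  have h1 : finrank ℂ (⊤ : Submodule ℂ (Fin m → ℂ)) ≤
      finrank ℂ (Submodule.span ℂ (Set.range v)) := Submodule.finrank_mono hle
  have h2 : finrank ℂ (Submodule.span ℂ (Set.range v)) ≤ k := by
    calc finrank ℂ (Submodule.span ℂ (Set.range v)) ≤ Fintype.card (Fin k) :=
        finrank_range_le_card v
      _ = k := Fintype.card_fin k
  rw [finrank_top, Module.finrank_fin_fun] at h1
  omega

lemma Vec_A {m : ℕ} (a : Fin m → ℂ) (ha : a ≠ 0) (k : ℕ) (hk : k + 1 < m) :
    ∃ w : Fin k → (Fin m → ℂ), (∀ i, w i ∈ Vec_perp a) ∧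
      LinearIndependent ℂ (Fin.cons a w : Fin (k + 1) → (Fin m → ℂ)) := by
  induction k with
  | zero =>
    refine ⟨fun i => i.elim0, fun i => i.elim0, ?_⟩
    rw [linearIndependent_finCons]
    refine ⟨linearIndependent_empty_type, ?_⟩
    rw [Set.range_eq_empty, Submodule.span_empty, Submodule.mem_bot]
    exact ha
  | succ k ih =>
    obtain ⟨w, hw, hli⟩ := ih (by omega)
    obtain ⟨y, hy, hy2⟩ := Vec_step a (Fin.cons a w : Fin (k + 1) → (Fin m → ℂ)) hk
    refine ⟨Fin.snoc w y, ?_, ?_⟩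
    · intro i
      refine Fin.lastCases ?_ (fun j => ?_) i
      · rw [Fin.snoc_last]; exact hy
      · rw [Fin.snoc_castSucc]; exact hw j
    · rw [Fin.cons_snoc_eq_snoc_cons]
      exact linearIndependent_finSnoc.2 ⟨hli, hy2⟩

lemma Vec_B {m r : ℕ} (a : Fin m → ℂ) (ha : a ≠ 0) (hr : r + 1 < m) (k : ℕ) (hk : r + 1 + k ≤ m) :
    ∃ v : Fin (r + 1 + k) → (Fin m → ℂ), LinearIndependent ℂ v ∧
      (∀ i : Fin (r + 1 + k), (i : ℕ) < r → v i ∈ Vec_perp a) ∧
      (∀ i : Fin (r + 1 + k), (i : ℕ) = r → v i = a) := by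
  induction k with
  | zero =>
    obtain ⟨w, hw, hli⟩ := Vec_A a ha r hr
    rw [linearIndependent_finCons] at hli
    refine ⟨Fin.snoc w a, linearIndependent_finSnoc.2 hli, ?_, ?_⟩
    · intro i
      refine Fin.lastCases ?_ (fun j => ?_) i
      · intro h
        simp at h
      · intro _
        rw [Fin.snoc_castSucc]; exact hw j
    · intro i
      refine Fin.lastCases ?_ (fun j => ?_) i
      · intro _
        rw [Fin.snoc_last]
      · intro h
        exfalso
        have := j.2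
        simp only [Fin.val_castSucc] at h
        omega
  | succ k ih =>
    obtain ⟨v, hli, hP, hE⟩ := ih (by omega)
    obtain ⟨y, hy⟩ := Vec_step2 v (by omega)
    refine ⟨(Fin.snoc v y : Fin (r + 1 + k + 1) → (Fin m → ℂ)),
      linearIndependent_finSnoc.2 ⟨hli, hy⟩, ?_, ?_⟩
    · intro i
      refine Fin.lastCases (motive := fun i : Fin (r + 1 + k + 1) => (i : ℕ) < r →
        (Fin.snoc v y : Fin (r + 1 + k + 1) → (Fin m → ℂ)) i ∈ Vec_perp a) ?_ (fun j => ?_) i
      · intro h
        exfalso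
        simp only [Fin.val_last] at h
        omega
      · intro h
        rw [Fin.snoc_castSucc]
        exact hP j h
    · intro i
      refine Fin.lastCases (motive := fun i : Fin (r + 1 + k + 1) => (i : ℕ) = r →
        (Fin.snoc v y : Fin (r + 1 + k + 1) → (Fin m → ℂ)) i = a) ?_ (fun j => ?_) i
      · intro h
        exfalso
        simp only [Fin.val_last] at h
        omega
      · intro h
        rw [Fin.snoc_castSucc]
        exact hE j h

theorem thm_Vec : St_Vec := by
  intro r a hr ha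
  obtain ⟨k, hk⟩ : ∃ k, r + 1 + k = 2 * r := ⟨r - 1, by omega⟩
  obtain ⟨v, hli, hP, hE⟩ := Vec_B a ha (show r + 1 < 2 * r by omega) k hk.le
  let e : Fin (2 * r) ≃ Fin (r + 1 + k) := Fin.revPerm.trans (finCongr hk.symm)
  have he : ∀ i : Fin (2 * r), ((e i : Fin (r + 1 + k)) : ℕ) = 2 * r - 1 - i := by
    intro i
    simp only [e, Equiv.trans_apply, Fin.revPerm_apply, finCongr_apply, Fin.val_cast,
      Fin.val_rev]
    omega
  refine ⟨Matrix.of (fun i => v (e i)), ?_, ⟨⟨r - 1, by omega⟩, ?_, ?_⟩, ?_⟩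
  · have hli2 : LinearIndependent ℂ (fun i => v (e i)) := hli.comp e e.injective
    have hu : IsUnit (Matrix.of (fun i => v (e i))) :=
      Matrix.linearIndependent_rows_iff_isUnit.1 hli2
    rw [Matrix.isUnit_iff_isUnit_det] at hu
    exact hu.ne_zero
  · show r - 1 < r
    omega
  · show v (e ⟨r - 1, by omega⟩) = a
    apply hE
    rw [he]
    show 2 * r - 1 - (r - 1) = r
    omega
  · intro i hi
    show ∑ j, v (e i) j * a j = 0
    rw [← Vec_mem]
    apply hP
    rw [he]
    have := i.2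
    omega

end BTL
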