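import Pool.Agent.DWZ.All
import Pool.Agent.BTL.Vec
import Pool.Agent.BTL.Dua
import Pool.Agent.BTL.Per
import Pool.Agent.BTL.DetB
import Pool.Agent.BTL.RatI
import Pool.Agent.BTL.NoC
import Pool.Agent.BTL.AlgI
import Pool.Agent.BTL.Non
import Pool.Agent.BTL.Rots
import Pool.Agent.BTL.Max
import Pool.Agent.BTL.Cen
import Pool.Agent.BTL.Frm
import Pool.Agent.BTL.Fam
import Pool.Agent.BTL.Abs
import Pool.Agent.BTL.QB
import Pool.Agent.BTL.Fin

/-!
# BTL: assembly
-/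

set_option autoImplicit false

namespace BTL

namespace All

theorem Hod_ : St_Hod := DWZ.All.HodZ_
theorem RatI_ : St_RatI := thm_RatI
theorem Dua_ : St_Dua := thm_Dua
theorem DetB_ : St_DetB := thm_DetB
theorem Vec_ : St_Vec := thm_Vec
theorem Per_ : St_Per := thm_Per
theorem NoC_ : St_NoC := thm_NoC Hod_ RatI_ Dua_ DetB_ Vec_ Per_
theorem AlgI_ : St_AlgI := thm_AlgI
theorem Non_ : St_Non := thm_Non AlgI_ NoC_
theorem Rots_ : St_Rots := thm_Rots
theorem Max_ : St_Max := thm_Max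
theorem Cen_ : St_Cen := thm_Cen
theorem Frm_ : St_Frm := thm_Frm
theorem Fam_ : St_Fam := thm_Fam
theorem Abs_ : St_Abs := thm_Abs Rots_ Max_ Cen_ Frm_ Fam_
theorem QB_ : St_QB := thm_QB
theorem Fin_ : St_Fin := thm_Fin Abs_ QB_ Non_

end All

end BTL
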