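import Pool.Agent.DWC.StK
import Pool.Agent.PSQ.AbsMain
import Pool.Agent.Helper8.B.Final2
import Pool.Agent.Helper8.B.Main2
import Pool.Agent.Helper7.W4.Quad

/-!
# BTL: powers of abelian varieties of signature `(n - 1, 1)` (definitions)

The last layer: from the Hodge property of the Grothendieck classes of degree `n` on an abelian
variety of dimension `n` with a Weil structure of signature `(n - 1, 1)` (campaign DWZ) to the
Grothendieck classes on all powers.
-/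

set_option autoImplicit false

namespace BTL

open Module Matrix
open Pool.Agent.GPC (AbVar)
open Pool.Agent.Helper7 (pData)

/-- A space of infinitesimal symmetries `(Z, c)` of `H_1(X)`, `c` is the multiplier, which is
rational for the Betti structure and contains the comparison operators. -/
structure IsRatAlg (X : AbVar) (J : Module.End ℂ X.H1)
    (𝔤 : Submodule ℂ (Module.End ℂ X.H1 × ℂ)) : Prop where
  comm : ∀ Z ∈ 𝔤, ∀ v, Z.1 (J v) = J (Z.1 v)
  pol : ∀ Z ∈ 𝔤, ∀ u v, X.pol (Z.1 u) v + X.pol u (Z.1 v) = Z.2 * X.pol u v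
  rat : ∀ Z ∈ 𝔤, Z ∈ Submodule.span ℂ
    {Z' | Z' ∈ 𝔤 ∧ (∀ v, X.IsBetti v → X.IsBetti (Z'.1 v)) ∧ ∃ q : ℚ, Z'.2 = q}
  mem : ∀ D : Derivation ℚ ℂ ℂ, ((pData X).N D, D (2 * Real.pi * Complex.I) /
    (2 * Real.pi * Complex.I)) ∈ 𝔤

/-- The operators of `𝔤` are conformal for the symmetric form with orthonormal basis `b`. -/
def IsConf {X : AbVar} (𝔤 : Submodule ℂ (Module.End ℂ X.H1 × ℂ)) (b : Fin X.g → X.H1) : Prop :=
  ∀ Z ∈ 𝔤, ∃ (c : ℂ) (S : Matrix (Fin X.g) (Fin X.g) ℂ), S.transpose = -S ∧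
    ∀ j, Z.1 (b j) = c • b j + ∑ i, S i j • b i

/-- `β` of degree `2k` is killed by `𝔤`, up to the multipliers. -/
def IsKilled {X : AbVar} (𝔤 : Submodule ℂ (Module.End ℂ X.H1 × ℂ)) (k : ℕ)
    (β : X.Class (2 * k)) : Prop :=
  ∀ Z ∈ 𝔤, ∀ v : Fin (2 * k) → X.H1,
    ∑ i, β (Function.update v i (Z.1 (v i))) = (k : ℂ) * Z.2 * β v

/-- `M` is conformal for the symmetric form given by `U`, `V = U⁻¹`. -/
def ConfM {m : ℕ} (U V M : Matrix (Fin m) (Fin m) ℂ) : Prop :=
  ∃ (c : ℂ) (S : Matrix (Fin m) (Fin m) ℂ), S.transpose = -S ∧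
    M = c • (1 : Matrix (Fin m) (Fin m) ℂ) + U * S * V

/-- The field `K` has one complex place. -/
structure OneP {K : Type} [Field K] (x : K) (σ₀ : K →+* ℂ) : Prop where
  two : ∀ τ : K →+* ℂ, τ = σ₀ ∨ τ = NumberField.ComplexEmbedding.conjugate σ₀
  ne : NumberField.ComplexEmbedding.conjugate σ₀ ≠ σ₀
  imag : NumberField.ComplexEmbedding.conjugate σ₀ x = -σ₀ x
  nz : σ₀ x ≠ 0

end BTL
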