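import Pool.Agent.BTL.Defs

/-!
# BTL: frozen statements
-/

set_option autoImplicit false

namespace BTL

open Module Matrix NumberField Pool.Agent.Helper7
open Pool.Agent.GPC (AbVar Form IsGrothendieck IsDivisorial)
open Pool.Agent.Ball (rot gAt HG Lorentz)
open Pool.Agent.Helper8.D (ent)
open PSQ (W Inv BetR DRA)

/-! ## Part A. No conformal structure -/

/-- [Hod] (input, campaign DWZ, `DWZ.St_HodZ`) the middle part of a Grothendieck class is a Hodge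
class -/
def St_Hod : Prop := ∀ (X : AbVar) (d : ℚ) (J : Module.End ℂ X.H1) (N k : ℕ) (z : ℂ), k < N →
  X.g = N + 1 → DWC.IsKs X d J → z ^ 2 = -(d : ℂ) → finrank ℂ (X.filEigen J z) = 1 →
  ∀ α : X.Class (2 * (k + 1)), X.IsGrothendieckClass (k + 1) α →
  ∀ v : Fin (2 * (k + 1)) → X.H1,
    (∀ i : Fin (2 * (k + 1)), (i : ℕ) < k + 1 → J (v i) = z • v i) →
    (∀ i : Fin (2 * (k + 1)), k + 1 ≤ (i : ℕ) → J (v i) = (-z) • v i ∧ X.IsFil (v i)) →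
    (∃ i : Fin (2 * (k + 1)), (i : ℕ) < k + 1 ∧ X.IsFil (v i)) → α v = 0

/-- [RatI] the invariants of a rational space of symmetries are spanned by Grothendieck classes -/
def St_RatI : Prop := ∀ (X : AbVar) (J : Module.End ℂ X.H1)
  (𝔤 : Submodule ℂ (Module.End ℂ X.H1 × ℂ)), IsRatAlg X J 𝔤 → ∀ (k : ℕ) (β : X.Class (2 * k)),
  IsKilled 𝔤 k β → β ∈ Submodule.span ℂ {γ : X.Class (2 * k) | X.IsGrothendieckClass k γ}

/-- [Dua] the dual basis -/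
def St_Dua : Prop := ∀ (X : AbVar) (d : ℚ) (J : Module.End ℂ X.H1) (z : ℂ)
  (b : Fin X.g → X.H1), DWC.IsKs X d J → z ^ 2 = -(d : ℂ) → LinearIndependent ℂ b →
  (∀ i, J (b i) = (-z) • b i) →
  ∃ b' : Fin X.g → X.H1, (∀ i, J (b' i) = z • b' i) ∧
    (∀ i j, X.pol (b i) (b' j) = if i = j then 1 else 0) ∧
    (∀ v, J v = z • v → v = ∑ i, X.pol (b i) v • b' i) ∧
    ∀ v, J v = (-z) • v → v = ∑ i, X.pol v (b' i) • b i

/-- [DetB] the class of the star operator -/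
def St_DetB : Prop := ∀ (X : AbVar) (d : ℚ) (J : Module.End ℂ X.H1) (z : ℂ) (r : ℕ)
  (h : 2 * r = X.g) (b b' : Fin X.g → X.H1) (𝔤 : Submodule ℂ (Module.End ℂ X.H1 × ℂ)),
  DWC.IsKs X d J → z ^ 2 = -(d : ℂ) → IsRatAlg X J 𝔤 → (∀ i, J (b i) = (-z) • b i) →
  (∀ i, J (b' i) = z • b' i) → (∀ i j, X.pol (b i) (b' j) = if i = j then 1 else 0) →
  (∀ v, J v = z • v → v = ∑ i, X.pol (b i) v • b' i) →
  (∀ v, J v = (-z) • v → v = ∑ i, X.pol v (b' i) • b i) → IsConf 𝔤 b →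
  ∃ β : X.Class (2 * r), IsKilled 𝔤 r β ∧
    ∀ x : Matrix (Fin (2 * r)) (Fin X.g) ℂ,
      β (fun i : Fin (2 * r) => if (i : ℕ) < r then ∑ j, x i j • b' j else ∑ j, x i j • b j) =
        (x.submatrix id (Fin.cast h)).det

/-- [Vec] linear algebra -/
def St_Vec : Prop := ∀ (r : ℕ) (a : Fin (2 * r) → ℂ), 2 ≤ r → a ≠ 0 →
  ∃ x : Matrix (Fin (2 * r)) (Fin (2 * r)) ℂ, x.det ≠ 0 ∧
    (∃ i : Fin (2 * r), (i : ℕ) < r ∧ x i = a) ∧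
    ∀ i : Fin (2 * r), r ≤ (i : ℕ) → ∑ j, x i j * a j = 0

/-- [Per] the orthogonal complement of the line in the filtration -/
def St_Per : Prop := ∀ (X : AbVar) (d : ℚ) (J : Module.End ℂ X.H1) (z : ℂ),
  DWC.IsKs X d J → z ^ 2 = -(d : ℂ) → finrank ℂ (X.filEigen J z) = 1 →
  ∃ e : X.H1, e ≠ 0 ∧ J e = z • e ∧ X.IsFil e ∧
    ∀ w, J w = (-z) • w → X.pol w e = 0 → X.IsFil w

/-- [NoC] no conformal structure -/
def St_NoC : Prop := ∀ (X : AbVar) (d : ℚ) (J : Module.End ℂ X.H1) (r : ℕ) (z : ℂ)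
  (𝔤 : Submodule ℂ (Module.End ℂ X.H1 × ℂ)) (b : Fin X.g → X.H1), 2 ≤ r → X.g = 2 * r →
  DWC.IsKs X d J → z ^ 2 = -(d : ℂ) → finrank ℂ (X.filEigen J z) = 1 → IsRatAlg X J 𝔤 →
  LinearIndependent ℂ b → (∀ i, J (b i) = (-z) • b i) → ¬ IsConf 𝔤 b

/-! ## Part B. The symmetries of a class -/

/-- [AlgI] the symmetries of a class -/
def St_AlgI : Prop := ∀ (A : AbVar) (J : Module.End ℂ A.H1) (n k : ℕ)
  (α : MultilinearMap ℂ (fun _ : Fin (2 * k) => W (Fin A.g ⊕ Fin A.g) n) ℂ), A.IsEnd J →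
  BetR (pData A) n k α → DRA n k α →
  ∃ 𝔤 : Submodule ℂ (Module.End ℂ A.H1 × ℂ), (∀ Z, Z ∈ 𝔤 ↔ Inv (pData A) n k α Z.1 Z.2) ∧
    IsRatAlg A J 𝔤

/-- [Non] there is a symmetry which is not conformal -/
def St_Non : Prop := ∀ (A : AbVar) (d : ℚ) (J : Module.End ℂ A.H1) (r : ℕ) (z : ℂ) (K : Type)
  [Field K] [NumberField K] (F : UF (pData A) K A.g) (x : K) (σ₀ : K →+* ℂ), 2 ≤ r →
  A.g = 2 * r → DWC.IsKs A d J → z ^ 2 = -(d : ℂ) → finrank ℂ (A.filEigen J z) = 1 →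
  (∀ v, F.ρ x v = J v) → σ₀ x = -z → OneP x σ₀ → ∀ (n k : ℕ)
  (α : MultilinearMap ℂ (fun _ : Fin (2 * k) => W (Fin A.g ⊕ Fin A.g) n) ℂ),
  BetR (pData A) n k α → DRA n k α → ∀ U V : Matrix (Fin A.g) (Fin A.g) ℂ, U * V = 1 →
  V * U = 1 → ∃ M ∈ gAt (fun _ : Unit => n) (fun _ => pData A) α () F σ₀, ¬ ConfM U V M

/-- [Rots] rotations, for all powers -/
def St_Rots : Prop := ∀ (κ : Type) [Fintype κ] [DecidableEq κ]
  (P : PData κ (2 * Real.pi * Complex.I)) (K : Type) [Field K] [NumberField K] (m : ℕ)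
  (F : UF P K m) (x : K) (σ₀ : K →+* ℂ), 3 ≤ m → OneP x σ₀ → Lorentz (HG F σ₀) → ∀ (n k : ℕ)
  (α : MultilinearMap ℂ (fun _ : Fin (2 * k) => W κ n) ℂ), BetR P n k α → DRA n k α →
  ∃ U V : Matrix (Fin m) (Fin m) ℂ, U * V = 1 ∧ V * U = 1 ∧
    ∀ i j, U * rot i j * V ∈ gAt (fun _ : Unit => n) (fun _ => P) α () F σ₀

/-- [Max] the orthogonal Lie algebra is maximal -/
def St_Max : Prop := ∀ (m : ℕ) (g : Submodule ℂ (Matrix (Fin m) (Fin m) ℂ))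
  (U V : Matrix (Fin m) (Fin m) ℂ), 3 ≤ m → U * V = 1 → V * U = 1 →
  (∀ A ∈ g, ∀ B ∈ g, A * B - B * A ∈ g) → (∀ i j, U * rot i j * V ∈ g) →
  (∃ M ∈ g, ¬ ConfM U V M) → ∀ y : Matrix (Fin m) (Fin m) ℂ, y.trace = 0 → y ∈ g

/-- [Cen] the centre -/
def St_Cen : Prop := ∀ (κ : Type) [Fintype κ] [DecidableEq κ]
  (P : PData κ (2 * Real.pi * Complex.I)) (K : Type) [Field K] [NumberField K] (m : ℕ)
  (F : UF P K m) (x : K) (σ₀ : K →+* ℂ), 0 < m → OneP x σ₀ →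
  (∃ D : Derivation ℚ ℂ ℂ, LinearMap.trace ℂ (κ → ℂ) (P.N D * F.ρ x) ≠ 0) → ∀ (n k : ℕ)
  (α : MultilinearMap ℂ (fun _ : Fin (2 * k) => W κ n) ℂ), BetR P n k α → DRA n k α →
  (∀ y : Matrix (Fin m) (Fin m) ℂ, y.trace = 0 →
    y ∈ gAt (fun _ : Unit => n) (fun _ => P) α () F σ₀) →
  ∀ y, y ∈ gAt (fun _ : Unit => n) (fun _ => P) α () F σ₀

/-! ## Part C. The first fundamental theorem -/

/-- [Frm] the frame -/
def St_Frm : Prop := ∀ (κ : Type) [Fintype κ] [DecidableEq κ] (ϖ : ℂ) (P : PData κ ϖ)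
  (K : Type) [Field K] [NumberField K] (m : ℕ) (F : UF P K m) (x : K) (σ₀ : K →+* ℂ),
  OneP x σ₀ → ∃ e : Basis (Bool × Fin m) ℂ (κ → ℂ), (∀ j, e (true, j) = F.e σ₀ j) ∧
    ∀ (X : Module.End ℂ (κ → ℂ)) (c : ℂ), F.Comm X →
    (∀ u v, P.ψ (X u) v + P.ψ u (X v) = c * P.ψ u v) →
    (∀ j, X (e (true, j)) = ∑ i, ent F σ₀ X i j • e (true, i)) ∧
    ∀ i, X (e (false, i)) = c • e (false, i) - ∑ j, ent F σ₀ X i j • e (false, j)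

/-- [Fam] the first fundamental theorem for the powers -/
def St_Fam : Prop := ∀ (κ : Type) [Fintype κ] [DecidableEq κ] (ϖ : ℂ) (P : PData κ ϖ)
  (n k p : ℕ) (α : MultilinearMap ℂ (fun _ : Fin (2 * k) => W κ n) ℂ)
  (e : Basis (Bool × Fin p) ℂ (κ → ℂ)),
  (∀ X c, Inv P n k α X c → ∃ y : Matrix (Fin p) (Fin p) ℂ,
    (∀ j, X (e (true, j)) = ∑ i, y i j • e (true, i)) ∧
    ∀ i, X (e (false, i)) = c • e (false, i) - ∑ j, y i j • e (false, j)) →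
  (∀ y : Matrix (Fin p) (Fin p) ℂ, ∃ X, Inv P n k α X 0 ∧
    ∀ j, X (e (true, j)) = ∑ i, y i j • e (true, i)) →
  α ∈ Submodule.span ℂ {M | ∃ (π : Equiv.Perm (Fin (2 * k)))
    (β : Fin k → (W κ n →ₗ[ℂ] W κ n →ₗ[ℂ] ℂ)),
    (∀ a, β a ∈ invB (fun _ : Unit => n) (fun _ => P) α) ∧ M = (prodBilin β).domDomCongr π}

/-- [Abs] the theorem for abstract data -/
def St_Abs : Prop := ∀ (κ : Type) [Fintype κ] [DecidableEq κ]
  (P : PData κ (2 * Real.pi * Complex.I)) (K : Type) [Field K] [NumberField K] (m : ℕ)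
  (F : UF P K m) (x : K) (σ₀ : K →+* ℂ), 3 ≤ m → OneP x σ₀ → Lorentz (HG F σ₀) →
  (∃ D : Derivation ℚ ℂ ℂ, LinearMap.trace ℂ (κ → ℂ) (P.N D * F.ρ x) ≠ 0) → ∀ (n k : ℕ)
  (α : (W κ n) [⋀^Fin (2 * k)]→ₗ[ℂ] ℂ),
  BetR P n k (α : MultilinearMap ℂ (fun _ : Fin (2 * k) => W κ n) ℂ) →
  DRA n k (α : MultilinearMap ℂ (fun _ : Fin (2 * k) => W κ n) ℂ) →
  (∀ U V : Matrix (Fin m) (Fin m) ℂ, U * V = 1 → V * U = 1 →
    ∃ M ∈ gAt (fun _ : Unit => n) (fun _ => P)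
      (α : MultilinearMap ℂ (fun _ : Fin (2 * k) => W κ n) ℂ) () F σ₀, ¬ ConfM U V M) →
  α ∈ Submodule.span ℚ {ω | ∃ γ : Fin k → (W κ n →ₗ[ℂ] W κ n →ₗ[ℂ] ℂ),
    (∀ a, γ a ∈ GW (fun _ : Unit => n) (fun _ => P)) ∧ ω = wedge γ}

/-- [QB] the field -/
def St_QB : Prop := ∀ (A : AbVar) (d : ℚ) (J : A.H1 → A.H1) (z : ℂ), 3 ≤ A.g → A.IsQuadBy d J →
  z ^ 2 = -(d : ℂ) → finrank ℂ (A.filEigen J z) = 1 →
  ∃ (K : Type) (_ : Field K) (_ : NumberField K) (F : UF (pData A) K A.g) (x : K)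
    (σ₀ : K →+* ℂ), (∀ v, F.ρ x v = J v) ∧ σ₀ x = -z ∧ OneP x σ₀ ∧ Lorentz (HG F σ₀)

/-- [Fin] the theorem: `End(A) ⊗ ℚ = ℚ(J)` is an imaginary quadratic field, of signature
`(n - 1, 1)`, `n = dim A`, and the power is `A` itself, or `n` is even -/
def St_Fin : Prop := ∀ (A : AbVar) (d : ℚ) (J : A.H1 → A.H1), 3 ≤ A.g → A.IsQuadBy d J →
  (∃ z : ℂ, z ^ 2 = -(d : ℂ) ∧ finrank ℂ (A.filEigen J z) = 1) →
  ∀ (m k : ℕ), (m = 1 ∨ Even A.g) → ∀ α : Form (fun _ : Unit => A) (fun _ => m) (2 * k),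
  IsGrothendieck (fun _ : Unit => A) (fun _ => m) k α ↔
    IsDivisorial (fun _ : Unit => A) (fun _ => m) k α

end BTL
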